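import Pool.Agent.Lib.MP_72e2e6_nt.Sm.Br.Spec

namespace Pool.Agent.MP72S

open Finset
open Pool.Agent.Lib.MP_72e2e6_nt.Sm.Cnt (vtx vtx_top Corner CodingData main_ineq)

private theorem Asm_fin {N J : Type} [AddCommGroup N] [Fintype J]
    (h : ∀ k : ℕ, {x : N | 2 ^ k • x = 0}.Finite) (k : ℕ) :
    Finite {ν : J → N // 2 ^ k • ν = 0} := by
  have h1 : (Set.pi Set.univ fun _ : J => {x : N | 2 ^ k • x = 0}).Finite :=
    Set.Finite.pi fun _ => h k
  have h2 : {ν : J → N | 2 ^ k • ν = 0} ⊆ Set.pi Set.univ fun _ : J => {x : N | 2 ^ k • x = 0} := by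
    intro ν hν j _
    exact congrFun (show 2 ^ k • ν = 0 from hν) j
  exact (h1.subset h2).to_subtype

section

variable {G N P : Type} [Group G] [TopologicalSpace G] [IsTopologicalGroup G] [AddCommGroup N]
  [DistribMulAction G N] (D : Dat G N P) {ι : Type} [Fintype ι] [DecidableEq ι] {M : ℕ}

/-- The constant type of the `ξ`. -/
private abbrev Asm_T1 (I : Finset ι) (K : ℕ) : Type :=
  {ξ : D.J ι → N // 2 ≤ K ∧ 2 ^ (K - 1) • ξ = 0 ∧ ∀ i ∈ I, 2 ^ (K - 2) • ξ (Sum.inr i) = 0}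

private abbrev Asm_T2 (f : D.J ι → N) (K : ℕ) : Type :=
  {τ : D.J ι → N // 2 ^ (K - 1) • τ = f}

private abbrev Asm_V (ι : Type) : Type := {ν : D.J ι → N // 2 • ν = 0} → ZMod 2

private abbrev Asm_A (I : Finset ι) (M : ℕ) : Type :=
  ({i // i ∈ I} × Fin M → ZMod 2) × Option ({i // i ∈ I} × Fin M) × Bool

omit [Fintype ι] in
private theorem Asm_cardA (I : Finset ι) (M : ℕ) :
    Nat.card (Asm_A I M) = 2 ^ (#I * M) * ((#I * M + 1) * 2) := by
  rw [Nat.card_eq_fintype_card]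
  simp [Fintype.card_prod, Fintype.card_option, ZMod.card]

open Classical in
private theorem Asm_data (hDom : S_Dom) (hHg : S_Hg) (hHz : S_Hz) (hHl : S_Hl) (hCls : S_Cls)
    (Gb : Subgroup G) (hD : Ax D) (hD2 : Ax2 D) (hGt : ∀ v, D.tau v ∈ Gb)
    (hGc : ∀ σ τ : G, σ * τ * σ⁻¹ * τ⁻¹ ∈ Gb) (S : ι → Finset P) (g : Grd P ι M) (s : D.ST ι)
    (hg : D.Gok S g) (K : ℕ) (Lam : AddSubgroup (D.J ι → N)) (f : D.J ι → N)
    (γ : (D.J ι → N) → ZMod 2) (t' : N) (hC : D.Cho g.I g.b K s Lam f γ t')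
    (hLam : ∀ c p, D.Gp S g s c p → D.Dk (g.cf c p) 1 = Lam)
    (hnz : ∀ c p, D.Zp S g K s c p → ∃ σ, D.e (D.coc (g.cf c p) f σ) t' = 1)
    (A : Finset P) (hSA : D.S ⊆ A) (hA : ∀ i, i ≠ g.b → S i ⊆ A)
    (hHH : ∀ H ∈ D.HH ι A,
      ({c ∈ S g.b | D.phi c ∈ H} : Set P).ncard * H.relIndex Gb ≤ 2 * #(S g.b))
    [Fintype (Asm_T1 D g.I K)] [Fintype (Asm_T2 D f K)] [Fintype (Asm_V D ι)] :
    ∃ C : CodingData {i // i ∈ g.I} M {c // c ∈ S g.b} (Asm_A g.I M) (Asm_T1 D g.I K)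
      (Asm_T2 D f K) (Asm_V D ι) (2 ^ (2 * K + 2) * (K * M + 1)),
      (∀ b w, w ∈ C.Z b ↔ D.Zp S g K s b.1 w) ∧ ∀ b w, w ∈ C.Y b ↔ D.Yp S g K s f b.1 w := by
  refine ⟨{
    a := fun c => D.cod S g s c.1
    g := fun ξ c => D.gfn S g s Lam ξ.1 c.1
    Dom := fun _ α p => ∃ c' ∈ S g.b, D.cod S g s c' = α ∧ D.Gp S g s c' p
    Z := fun c => univ.filter fun p => D.Zp S g K s c.1 p
    Y := fun c => univ.filter fun p => D.Yp S g K s f c.1 p
    L := fun τ c => univ.filter fun p => D.Lp S g K s f τ.1 c.1 p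
    hs := ?_
    hg := ?_
    hZ := ?_
    hYZ := ?_
    hLY := ?_
    hYL := ?_
    hL := ?_
    hP := ?_ }, ?_, ?_⟩
  · intro ξ c p hne
    refine ⟨c.1, c.2, rfl, ?_⟩
    by_contra h
    apply hne
    unfold Dat.gfn
    rw [dif_neg]
    exact fun h2 => h h2.1
  · intro ξ c c' hcc x p hx hdom hw
    have h1 : ∀ w, D.Gp S g s c.1 (vtx x p w) := by
      intro w
      obtain ⟨c1, -, h2, h3⟩ := hdom w
      exact hDom D hD S g s hg c1 c.1 h2 _ h3
    have h2 : ∀ w, D.Gp S g s c'.1 (vtx x p w) := fun w =>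
      hDom D hD S g s hg c.1 c'.1 hcc _ (h1 w)
    obtain ⟨hk2, hξ1, hξ2⟩ := ξ.2
    refine hHg D hD S g s hg Lam hLam ξ.1 (by rw [hC.cK]; exact hk2) (by rw [hC.cK]; exact hξ1)
      (by rw [hC.cK]; exact hξ2) c.1 c'.1 x p hx h1 h2 hw
  · intro c c' hcc hgg
    have h1 : ∀ ξ : D.J ι → N, 2 ≤ K → 2 ^ (K - 1) • ξ = 0 →
        (∀ i ∈ g.I, 2 ^ (K - 2) • ξ (Sum.inr i) = 0) →
        D.gfn S g s Lam ξ c.1 = D.gfn S g s Lam ξ c'.1 := fun ξ h1 h2 h3 =>
      hgg ⟨ξ, h1, h2, h3⟩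
    ext p
    simp only [mem_filter, mem_univ, true_and]
    exact ⟨hHz D hD hD2 S g s hg K Lam f γ t' hC hLam c.1 c'.1 hcc h1 p,
      hHz D hD hD2 S g s hg K Lam f γ t' hC hLam c'.1 c.1 hcc.symm
        (fun ξ h2 h3 h4 => (h1 ξ h2 h3 h4).symm) p⟩
  · intro c p hp
    simp only [mem_filter, mem_univ, true_and] at hp ⊢
    exact hp.1
  · intro τ c p hp
    simp only [mem_filter, mem_univ, true_and] at hp ⊢
    exact hp.1
  · intro c p hp
    simp only [mem_filter, mem_univ, true_and] at hp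
    obtain ⟨t, ⟨ht1, ht2⟩, ht3⟩ := hp.2
    have ht3' : 2 ^ (K + 1 - 1) • t = f := ht3
    have h1 : 2 ^ (K - 1) • (2 • t) = f := by
      rw [smul_smul, ← pow_succ]
      have h2 : K - 1 + 1 = K + 1 - 1 := by
        have := hC.hK
        omega
      rw [h2, ht3']
    refine ⟨⟨2 • t, h1⟩, ?_⟩
    simp only [mem_filter, mem_univ, true_and]
    exact ⟨hp, t, ht1, rfl⟩
  · intro τ c c' hcc hgg hYY x p hx hY hw
    simp only [mem_filter, mem_univ, true_and] at hY hw ⊢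
    have h1 : ∀ w, D.Yp S g K s f c'.1 (vtx x p w) := by
      intro w
      have h2 : vtx x p w ∈ univ.filter fun p => D.Yp S g K s f c.1 p :=
        mem_filter.mpr ⟨mem_univ _, hY w⟩
      rw [hYY] at h2
      exact (mem_filter.mp h2).2
    exact ⟨hHl D hD hD2 S g s hg K Lam f γ t' hC hLam τ.1 τ.2 c.1 c'.1 x p hx hY h1 hw,
      hHl D hD hD2 S g s hg K Lam f γ t' hC hLam τ.1 τ.2 c'.1 c.1 x p hx h1 hY
        fun w hwt => ⟨(hw w hwt).2, (hw w hwt).1⟩⟩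
  · intro c₀
    have h1 := hCls D Gb hD hD2 hGt hGc S g s hg K Lam f γ t' hC hLam hnz A hSA hA hHH c₀.1
    rw [Asm_cardA, hC.cK, Fintype.card_coe]
    refine le_trans ?_ h1
    have hLL : ∀ (τ : Asm_T2 D f K) (c : {c // c ∈ S g.b}),
        (fun p => p ∈ univ.filter fun p => D.Lp S g K s f τ.1 c.1 p) = D.Lp S g K s f τ.1 c.1 := by
      intro τ c
      funext p
      exact propext ⟨fun h => (mem_filter.mp h).2, fun h => mem_filter.mpr ⟨mem_univ _, h⟩⟩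
    have hcard2 : Nat.card {p : {i // i ∈ g.I} → Fin M // ∃ τ : Asm_T2 D f K,
          Corner (· ∈ univ.filter fun p => D.Lp S g K s f τ.1 c₀.1 p) p} =
        Nat.card {p : {i // i ∈ g.I} → Fin M //
          ∃ τ : D.J ι → N, 2 ^ (K - 1) • τ = f ∧ Corner (D.Lp S g K s f τ c₀.1) p} := by
      refine Nat.card_congr (Equiv.subtypeEquivRight fun p => ?_)
      constructor
      · rintro ⟨τ, h2⟩
        rw [hLL] at h2
        exact ⟨τ.1, τ.2, h2⟩
      · rintro ⟨τ, h2, h3⟩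
        refine ⟨⟨τ, h2⟩, ?_⟩
        rw [hLL]
        exact h3
    rw [hcard2]
    gcongr
    have hfin : Finite ({c | c ∈ S g.b ∧ (D.cod S g s c = D.cod S g s c₀.1 ∧
        ∀ τ, 2 ^ (K - 1) • τ = f → D.Lp S g K s f τ c = D.Lp S g K s f τ c₀.1)} : Set P) :=
      ((S g.b).finite_toSet.subset fun c hc => hc.1).to_subtype
    refine Nat.card_le_card_of_injective (β := ({c | c ∈ S g.b ∧ (D.cod S g s c = D.cod S g s c₀.1 ∧
        ∀ τ, 2 ^ (K - 1) • τ = f → D.Lp S g K s f τ c = D.Lp S g K s f τ c₀.1)} : Set P))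
      (fun c => ⟨c.1.1, c.1.2, c.2.1, fun τ hτ => ?_⟩) ?_
    · have h2 := c.2.2.2.2 ⟨τ, hτ⟩
      rw [← hLL ⟨τ, hτ⟩ c.1, ← hLL ⟨τ, hτ⟩ c₀, h2]
    · intro c c' h
      exact Subtype.ext (Subtype.ext (congrArg (fun z => z.1) h))
  · intro c p
    exact ⟨fun h => (mem_filter.mp h).2, fun h => mem_filter.mpr ⟨mem_univ _, h⟩⟩
  · intro c p
    exact ⟨fun h => (mem_filter.mp h).2, fun h => mem_filter.mpr ⟨mem_univ _, h⟩⟩

end

theorem tAsm : S_Cf → S_Dom → S_Hg → S_Hz → S_Hl → S_Hfin → S_Cls → S_Chs → S_Spt → S_Sy1 →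
    S_Bas → S_Dk1 → S_Asm := by
  intro hCf hDom hHg hHz hHl hHfin hCls hChs hSpt hSy1 hBas hDk1
  intro G N P ι _ _ _ _ _ _ _ D Gb hD hD2 hGt hGc b K hK ε hε
  classical
  have hbas := (hBas D hD).2.1
  have hf1 : Finite {ν : D.J ι → N // 2 ^ (K - 1) • ν = 0} := Asm_fin hbas _
  have hf2 : Finite {ν : D.J ι → N // 2 ^ K • ν = 0} := Asm_fin hbas _
  have hf3 : Finite {ν : D.J ι → N // 2 • ν = 0} := by
    have := Asm_fin (J := D.J ι) hbas 1
    rwa [pow_one] at this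
  obtain ⟨M, hM, hmain⟩ := main_ineq.{0, 0, 0, 0, 0, 0, 0} K hK (2 ^ (2 * K + 2) * K)
    (Nat.card {ν : D.J ι → N // 2 ^ (K - 1) • ν = 0}) (Nat.card {ν : D.J ι → N // 2 ^ K • ν = 0})
    (Nat.card (Asm_V D ι)) ε hε
  obtain ⟨N₁, hN₁⟩ := exists_nat_ge (((K * M : ℕ) : ℝ) * ((K * M : ℕ) + (Fintype.card ι : ℝ)) * 2 / ε)
  refine ⟨N₁, fun S hSN hSS => ?_⟩
  refine ⟨D.HH ι (D.S ∪ (univ.filter (· ≠ b)).biUnion S), hHfin D hD _,
    fun H hH => ⟨hH.1, hH.2.1⟩, ?_⟩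
  intro S' hS' hok hHH s hs16 hpat f hf hfT
  by_cases hz : ∃ z₀ ∈ tup S', D.IsSt K z₀ s
  swap
  · have h0 : {z | z ∈ tup S' ∧ (D.IsSt K z s ∧ f ∈ D.Dk z (K + 1))} = (∅ : Set (ι → P)) := by
      ext z
      simp only [Set.mem_ofPred_eq, Set.mem_empty_iff_false, iff_false]
      exact fun h => hz ⟨z, h.1, h.2.1⟩
    rw [h0, Set.ncard_empty]
    push_cast
    have : (0 : ℝ) ≤ ∏ i, (#(S' i) : ℝ) := prod_nonneg fun i _ => by positivity
    positivity
  obtain ⟨z₀, hz₀, hst⟩ := hz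
  obtain ⟨I, f₀, γ, t', hC, ⟨σ, hσ⟩, hff⟩ := hChs D hD b K hK s z₀ (hok z₀ hz₀) hst hs16
    (hpat z₀ hz₀ hst) f hf hfT
  have hspt := hSpt S' I b hC.hb (fun x => Function.Injective x ∧ D.IsSt K x s)
    (fun x => (Function.Injective x ∧ D.IsSt K x s) ∧ f₀ ∈ D.Dk x (K + 1)) (15 / 16) ε
    (by norm_num) hε.le ?_
  · have h1 : {z | z ∈ tup S' ∧ (D.IsSt K z s ∧ f ∈ D.Dk z (K + 1))} = {x : ι → P |
        (∀ i, x i ∈ S' i) ∧ ((Function.Injective x ∧ D.IsSt K x s) ∧ f₀ ∈ D.Dk x (K + 1))} := by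
      ext z
      constructor
      · rintro ⟨h1, h2, h3⟩
        exact ⟨h1.1, ⟨h1.2, h2⟩, (hff z (hok z h1) (K + 1) (by omega)).mp h3⟩
      · rintro ⟨h1, ⟨h2, h3⟩, h4⟩
        exact ⟨⟨h1, h2⟩, h3, (hff z (hok z ⟨h1, h2⟩) (K + 1) (by omega)).mpr h4⟩
    have h2 : {z | z ∈ tup S' ∧ D.IsSt K z s} = {x : ι → P |
        (∀ i, x i ∈ S' i) ∧ (Function.Injective x ∧ D.IsSt K x s)} := by
      ext z
      exact ⟨fun h => ⟨h.1.1, h.1.2, h.2⟩, fun h => ⟨⟨h.1, h.2.1⟩, h.2.2⟩⟩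
    rw [h1, h2]
    exact hspt
  · intro R hR
    let T : Finset P := (univ.filter fun j => j ∉ I ∧ j ≠ b).image R
    have hT : #T ≤ Fintype.card ι := card_image_le.trans (card_filter_le _ _)
    have hm := hmain (ι := {i // i ∈ I}) (β := {c // c ∈ S' b}) (fun i => S' i.1) T
      (fun u c => Function.Injective (fun j => if h : j ∈ I then u ⟨j, h⟩ else
        if j = b then c.1 else R j) ∧ D.IsSt K (fun j => if h : j ∈ I then u ⟨j, h⟩ else
        if j = b then c.1 else R j) s)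
      (fun u c => (Function.Injective (fun j => if h : j ∈ I then u ⟨j, h⟩ else
        if j = b then c.1 else R j) ∧ D.IsSt K (fun j => if h : j ∈ I then u ⟨j, h⟩ else
        if j = b then c.1 else R j) s) ∧ f₀ ∈ D.Dk (fun j => if h : j ∈ I then u ⟨j, h⟩ else
        if j = b then c.1 else R j) (K + 1))
      (by rw [Fintype.card_coe, hC.cK]) ?_ ?_
    · rw [Fintype.card_coe] at hm
      exact hm
    · intro i
      have hib : i.1 ≠ b := fun h => hC.hb (h ▸ i.2)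
      have h1 : (N₁ : ℝ) ≤ #(S' i.1) := by
        rw [hS' i.1 hib]
        exact_mod_cast hSN i.1 hib
      have h2 : ((K * M : ℕ) : ℝ) * ((K * M : ℕ) + (#T : ℝ)) ≤
          ((K * M : ℕ) : ℝ) * ((K * M : ℕ) + (Fintype.card ι : ℝ)) := by
        have : (#T : ℝ) ≤ Fintype.card ι := by exact_mod_cast hT
        gcongr
      have h3 := hN₁.trans h1
      rw [div_le_iff₀ hε] at h3
      linarith
    · intro e he hinj heT
      let g : Grd P ι M := ⟨b, I, e, R⟩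
      have hg : D.Gok S' g := by
        refine ⟨hC.hb, hinj, he, ?_, ?_, hok⟩
        · intro k j h1 h2 h3
          refine heT k ?_
          rw [show e k = R j from h3]
          exact mem_image_of_mem _ (mem_filter.mpr ⟨mem_univ _, h1, h2⟩)
        · intro i hi v hv
          rw [hS' i hi] at hv
          exact hSS i hi v hv
      have hLam : ∀ c p, D.Gp S' g s c p → D.Dk (g.cf c p) 1 = D.Dk z₀ 1 := fun c p hp =>
        (hSy1 D hD _ _ (hg.ok _ hp.1) (hok z₀ hz₀) (hp.2.trans hst.1.symm)).1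
      have hnz : ∀ c p, D.Zp S' g K s c p → ∃ σ, D.e (D.coc (g.cf c p) f₀ σ) t' = 1 := by
        intro c p hp
        exact (hSy1 D hD _ _ (hok z₀ hz₀) (hg.ok _ hp.1) (hst.1.trans hp.2.1.symm)).2 f₀ hC.fL t'
          hC.two ⟨σ, hσ⟩
      have i1 : Finite (Asm_T1 D I K) := by
        refine Finite.of_injective (β := {ν : D.J ι → N // 2 ^ (K - 1) • ν = 0})
          (fun ξ => ⟨ξ.1, ξ.2.2.1⟩) fun a a' h => Subtype.ext (congrArg (fun z => z.1) h)
      have hτ2 : ∀ τ : Asm_T2 D f₀ K, 2 ^ K • τ.1 = 0 := by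
        intro τ
        have h1 : 2 ^ K • τ.1 = 2 • (2 ^ (K - 1) • τ.1) := by
          rw [smul_smul, ← pow_succ', Nat.sub_add_cancel hK]
        rw [h1, τ.2]
        exact hC.lam2 _ hC.fL
      have i2 : Finite (Asm_T2 D f₀ K) := by
        refine Finite.of_injective (β := {ν : D.J ι → N // 2 ^ K • ν = 0})
          (fun ξ => ⟨ξ.1, hτ2 ξ⟩) fun a a' h => Subtype.ext (congrArg (fun z => z.1) h)
      have i3 : Finite (Asm_V D ι) := inferInstance
      let j1 : Fintype (Asm_T1 D g.I K) := Fintype.ofFinite _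
      let j2 : Fintype (Asm_T2 D f₀ K) := Fintype.ofFinite _
      let j3 : Fintype (Asm_V D ι) := Fintype.ofFinite _
      obtain ⟨C, hCZ, hCY⟩ := Asm_data D hDom hHg hHz hHl hCls Gb hD hD2 hGt hGc S' g s hg K
        (D.Dk z₀ 1) f₀ γ t' hC hLam hnz (D.S ∪ (univ.filter (· ≠ b)).biUnion S) subset_union_left
        (by
          intro i hi
          rw [hS' i hi]
          exact (subset_biUnion_of_mem S (x := i) (mem_filter.mpr ⟨mem_univ i, hi⟩)).trans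
            subset_union_right) hHH
      have hmem : ∀ (c : {c // c ∈ S' b}) (p : {i // i ∈ I} → Fin M) (i : ι),
          g.cf c.1 p i ∈ S' i := by
        intro c p i
        obtain ⟨-, h2, h3, h4, -⟩ := hCf g hC.hb c.1 c.1 p p
        by_cases hi : i ∈ I
        · rw [h3 i hi]
          exact he (⟨i, hi⟩, p ⟨i, hi⟩)
        · by_cases hib : i = b
          · subst hib
            rw [show g.cf c.1 p i = c.1 from h2]
            exact c.2
          · rw [h4 i hi hib]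
            exact hR i hi hib
      refine ⟨Asm_A g.I M, Asm_T1 D g.I K, Asm_T2 D f₀ K, Asm_V D ι, inferInstance, j1, j2, j3, _, C,
        ?_, ?_, ?_, ?_, ?_, ?_⟩
      · rw [mul_assoc]
        refine Nat.mul_le_mul_left _ ?_
        nlinarith
      · rw [← Nat.card_eq_fintype_card]
        exact Nat.card_le_card_of_injective (β := {ν : D.J ι → N // 2 ^ (K - 1) • ν = 0})
          (fun ξ => ⟨ξ.1, ξ.2.2.1⟩) fun a a' h => Subtype.ext (congrArg (fun z => z.1) h)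
      · rw [← Nat.card_eq_fintype_card]
        exact Nat.card_le_card_of_injective (β := {ν : D.J ι → N // 2 ^ K • ν = 0})
          (fun ξ => ⟨ξ.1, hτ2 ξ⟩) fun a a' h => Subtype.ext (congrArg (fun z => z.1) h)
      · rw [← Nat.card_eq_fintype_card]
      · intro c w
        rw [hCZ]
        exact ⟨fun h => ⟨h.1.2, h.2⟩, fun h => ⟨⟨hmem c w, h.1⟩, h.2⟩⟩
      · intro c w
        rw [hCY]
        exact ⟨fun h => ⟨⟨h.1.1.2, h.1.2⟩, h.2⟩, fun h => ⟨⟨⟨hmem c w, h.1.1⟩, h.1.2⟩, h.2⟩⟩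

end Pool.Agent.MP72S
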