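import Pool.Agent.Lib.MP_72e2e6_nt.Sm.Br.Spec

namespace Pool.Agent.MP72S

open Finset
open Pool.Agent.Lib.MP_72e2e6_nt.Sm.Cnt (vtx Corner CodingData main_ineq)

theorem tCf : S_Cf := by
  intro P ι _ M g hb c c' x p
  have hI : ∀ (c : P) (q : {i // i ∈ g.I} → Fin M) (i) (hi : i ∈ g.I),
      g.cf c q i = g.e (⟨i, hi⟩, q ⟨i, hi⟩) := by
    intro c q i hi
    simp only [Grd.cf, dif_pos hi]
  have hB : ∀ (c : P) (q : {i // i ∈ g.I} → Fin M), g.cf c q g.b = c := by
    intro c q
    simp only [Grd.cf, dif_neg hb, if_true]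
  have hR : ∀ (c : P) (q : {i // i ∈ g.I} → Fin M) (j), j ∉ g.I → j ≠ g.b →
      g.cf c q j = g.R j := by
    intro c q j h1 h2
    simp only [Grd.cf, dif_neg h1, if_neg h2]
  refine ⟨?_, hB c p, hI c p, hR c p, ?_⟩
  · intro w
    funext j
    by_cases hj : j ∈ g.I
    · rw [hI _ _ j hj]
      by_cases hw : j ∈ w
      · rw [mx, if_pos hw, hI _ _ j hj]
        simp [vtx, hw]
      · rw [mx, if_neg hw, hI _ _ j hj]
        simp [vtx, hw]
    · by_cases hjb : j = g.b
      · subst hjb
        rw [hB, mx, hB, hB]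
      · rw [hR _ _ j hj hjb, mx, hR _ _ j hj hjb, hR _ _ j hj hjb, ite_self]
  · intro w
    refine ⟨(univ.filter fun i : {i // i ∈ g.I} => w i = false).image Subtype.val, ?_, ?_, ?_⟩
    · intro i hi
      obtain ⟨a, -, rfl⟩ := mem_image.mp hi
      exact a.2
    · funext i
      cases h : w i <;> simp [h]
    · constructor
      · intro h
        funext i
        by_contra hi
        have h3 : w i = false := by
          cases h4 : w i
          · rfl
          · exact absurd h4 hi
        have : i.1 ∈ (univ.filter fun i : {i // i ∈ g.I} => w i = false).image Subtype.val :=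
          mem_image.mpr ⟨i, mem_filter.mpr ⟨mem_univ _, h3⟩, rfl⟩
        rw [h] at this
        exact absurd this (notMem_empty _)
      · intro h
        rw [image_eq_empty, filter_eq_empty_iff]
        intro i _
        rw [h]
        simp

end Pool.Agent.MP72S
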