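import Pool.Agent.Lib.MP_72e2e6_nt.Sm.Br.Spec

/-!
# MP_72e2e6_nt, `Sm/Br`, module `Coe` (helper59)
-/

namespace Pool.Agent.MP72S

open Finset

private theorem coe_val {G N P ι : Type} [Group G] [TopologicalSpace G] [AddCommGroup N]
    [DistribMulAction G N] [Fintype ι] [DecidableEq ι] {M : ℕ} {D : Dat G N P} (hD : Ax D)
    (hTai : S_Tai) (hCf : S_Cf) {g : Grd P ι M} (hb : g.b ∉ g.I) {c : P}
    {p : {i // i ∈ g.I} → Fin M} (hok : D.Ok (g.cf c p)) {ν : D.J ι → N} {ψ : G → N}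
    (hψ : D.IsZ (g.cf c p) ν ψ) (hb0 : ν (Sum.inr g.b) = 0)
    (hI0 : ∀ i ∈ g.I, ν (Sum.inr i) = 0) {v : P} (hv : v ∉ D.S) :
    (∀ j, j ∉ g.I → j ≠ g.b → v = g.R j → ψ (D.tau v) = -ν (Sum.inr j)) ∧
    ((∀ j, j ∉ g.I → j ≠ g.b → v ≠ g.R j) → ψ (D.tau v) = 0) := by
  have hR := (hCf g hb c c p p).2.2.2.1
  have hT := (hTai D hD _ hok).2.2.2.2.1
  constructor
  · intro j hj hjb hvj
    rw [hvj, ← hR j hj hjb]
    exact hT j ν ψ hψ
  · intro h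
    by_cases hr : ∃ i, v = g.cf c p i
    · obtain ⟨i, hi⟩ := hr
      have h1 : ψ (D.tau v) = -ν (Sum.inr i) := by
        rw [hi]
        exact hT i ν ψ hψ
      by_cases hiI : i ∈ g.I
      · rw [h1, hI0 i hiI, neg_zero]
      · by_cases hib : i = g.b
        · rw [h1, hib, hb0, neg_zero]
        · exact absurd (hi.trans (hR i hiI hib)) (h i hiI hib)
    · refine hψ.u.ur v ?_
      rintro ⟨j, hj⟩
      rcases j with j | j
      · exact hv (hj ▸ j.2)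
      · exact hr ⟨j, hj.symm⟩

theorem tCoe : S_Hom → S_Uq → S_Tai → S_Lfx → S_Cf → S_Coe := by
  intro hHom hUq hTai hLfx hCf G N P ι _ _ _ _ _ _ M D hD S g s hg c c' p p' hp hp' ν hν hZ hZ'
    hb0 hI0 σ
  have hok := hg.ok _ hp.1
  have hok' := hg.ok _ hp'.1
  have hc := Dat.coc_spec hZ
  have hc' := Dat.coc_spec hZ'
  have h2 : 2 ^ 1 • ν = 0 := by rw [pow_one]; exact hν
  have ht : ∀ σ, 2 • D.coc (g.cf c p) ν σ = 0 := fun σ => by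
    have h := (hUq D hD (g.cf c p)).2.2.2.2 ν hZ 1 h2 σ
    rwa [pow_one] at h
  have ht' : ∀ σ, 2 • D.coc (g.cf c' p') ν σ = 0 := fun σ => by
    have h := (hUq D hD (g.cf c' p')).2.2.2.2 ν hZ' 1 h2 σ
    rwa [pow_one] at h
  have hSy : D.Sy (g.cf c p) = D.Sy (g.cf c' p') := hp.2.trans hp'.2.symm
  have hsym : ∀ (i : ι) (v : P) (hv : v ∈ D.S),
      D.ch (g.cf c p i) (D.tau v) = D.ch (g.cf c' p' i) (D.tau v) ∧
      D.ch (g.cf c p i) (D.phi v) = D.ch (g.cf c' p' i) (D.phi v) := by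
    intro i v hv
    have h := congrFun (congrFun (congrArg (fun z => z.2.1) hSy) i) ⟨v, hv⟩
    simp only [Dat.Sy, Prod.mk.injEq] at h
    exact ⟨h.1, h.2.1⟩
  -- the places of `S`
  have hS : ∀ v ∈ D.S, D.coc (g.cf c p) ν (D.tau v) = D.coc (g.cf c' p') ν (D.tau v) ∧
      D.coc (g.cf c p) ν (D.phi v) = D.coc (g.cf c' p') ν (D.phi v) := by
    intro v hv
    obtain ⟨Q, hQ, hL⟩ := hc.lo (Sum.inl ⟨v, hv⟩)
    obtain ⟨Q', hQ', hL'⟩ := hc'.lo (Sum.inl ⟨v, hv⟩)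
    refine hLfx D hD _ _ v Q Q' _ _ hL hL' (hQ.trans hQ'.symm) ?_ ?_
    · unfold Dat.chi
      rw [sum_congr rfl fun i _ => (hsym i v hv).1]
    · unfold Dat.chi
      rw [sum_congr rfl fun i _ => (hsym i v hv).2]
  have hall : ∀ v, D.coc (g.cf c p) ν (D.tau v) = D.coc (g.cf c' p') ν (D.tau v) := by
    intro v
    by_cases hv : v ∈ D.S
    · exact (hS v hv).1
    have h1 := coe_val hD hTai hCf hg.hb hok hc hb0 hI0 hv
    have h1' := coe_val hD hTai hCf hg.hb hok' hc' hb0 hI0 hv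
    by_cases hr : ∃ j, j ∉ g.I ∧ j ≠ g.b ∧ v = g.R j
    · obtain ⟨j, hj, hjb, hvj⟩ := hr
      rw [h1.1 j hj hjb hvj, h1'.1 j hj hjb hvj]
    · have h3 : ∀ j, j ∉ g.I → j ≠ g.b → v ≠ g.R j := fun j hj hjb hvj => hr ⟨j, hj, hjb, hvj⟩
      rw [h1.2 h3, h1'.2 h3]
  have hhom : ∀ {x : ι → P}, (∀ σ, 2 • D.coc x ν σ = 0) → D.IsZ x ν (D.coc x ν) → ∀ σ τ,
      D.coc x ν (σ * τ) = D.coc x ν σ + D.coc x ν τ := by
    intro x hx hz σ τ
    rw [hz.u.co σ τ, tw_two hD.tri (hx τ)]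
  have hθ : IsHo fun σ => D.coc (g.cf c p) ν σ - D.coc (g.cf c' p') ν σ := by
    refine ⟨hc.u.lc.comp₂ hc'.u.lc (fun a b => a - b), fun σ => ?_, fun σ τ => ?_⟩
    · rw [smul_sub, ht σ, ht' σ, sub_zero]
    · rw [hhom ht hc σ τ, hhom ht' hc' σ τ]
      abel
  have h := (hHom D hD).1 _ hθ (fun v => sub_eq_zero.2 (hall v))
    (sub_eq_zero.2 (hS D.inf hD.infS).2) σ
  exact sub_eq_zero.1 h

end Pool.Agent.MP72S
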