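import Pool.Agent.Lib.MP_72e2e6_nt.Sm.Br.Spec

/-!
# `Sm/Br/Gdc`: cubes of good points are good
-/

namespace Pool.Agent.MP72S

open Finset
open Pool.Agent.Lib.MP_72e2e6_nt.Sm.Cnt (vtx Corner CodingData main_ineq vtx_top)

private theorem gdc_aux (hSyG : S_SyG) (hCf : S_Cf) {G N P ι : Type} [Group G]
    [TopologicalSpace G] [AddCommGroup N] [DistribMulAction G N] [Fintype ι] [DecidableEq ι]
    {M : ℕ} (D : Dat G N P) (S : ι → Finset P) (g : Grd P ι M) (s : D.ST ι) (hg : D.Gok S g)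
    (c c' : P) (x p : {i // i ∈ g.I} → Fin M) (hxp : ∀ i, x i < p i)
    (h : ∀ w, D.Gp S g s c (vtx x p w)) (h' : ∀ w, D.Gp S g s c' (vtx x p w)) (U : Finset ι)
    (hU : ∀ i ∈ U, i ∈ g.I ∨ (i = g.b ∧ c ≠ c')) : D.Gd (g.cf c' p) (g.cf c x) U := by
  have hgp : ∀ w : Finset ι, D.Gp S g s (if g.b ∈ w then c else c')
      (vtx x p fun i => decide (i.1 ∉ w)) := by
    intro w
    split_ifs
    · exact h _
    · exact h' _
  have hmx : ∀ w : Finset ι, mx (g.cf c' p) (g.cf c x) w =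
      g.cf (if g.b ∈ w then c else c') (vtx x p fun i => decide (i.1 ∉ w)) :=
    (hCf g hg.hb c c' x p).1
  refine hSyG D (g.cf c' p) (g.cf c x) U (fun w _ => ?_) (fun i hi => ?_) (fun w _ => ?_)
  · rw [hmx w]
    exact hg.ok _ (hgp w).1
  · obtain ⟨-, hb', hI', -⟩ := hCf g hg.hb c' c x p
    obtain ⟨-, hbx, hIx, -⟩ := hCf g hg.hb c c' p x
    rcases hU i hi with hi | ⟨rfl, hc⟩
    · rw [hI' i hi, hIx i hi]
      intro he
      have := hg.inj he
      rw [Prod.mk.injEq] at this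
      exact (hxp ⟨i, hi⟩).ne this.2.symm
    · rw [hb', hbx]
      exact hc.symm
  · rw [hmx w, (hgp w).2]
    have := (h' fun _ => true).2
    rw [vtx_top] at this
    exact this.symm

theorem tGdc : S_SyG → S_Cf → S_Gdc := by
  intro hSyG hCf G N P ι _ _ _ _ _ _ M D S g s hg c c' x p hxp
  refine ⟨fun h => ?_, fun hc h h' => ?_⟩
  · exact gdc_aux hSyG hCf D S g s hg c c x p hxp h h g.I fun i hi => Or.inl hi
  · refine gdc_aux hSyG hCf D S g s hg c c' x p hxp h h' _ fun i hi => ?_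
    rcases Finset.mem_insert.1 hi with hi | hi
    · exact Or.inr ⟨hi, hc⟩
    · exact Or.inl hi

end Pool.Agent.MP72S
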