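import Pool.Agent.Lib.MP_72e2e6_nt.Sm.Br.Spec

/-!
# MP_72e2e6_nt, `Sm/Br`, module `Hfin`: finiteness of the set of subgroups
-/

namespace Pool.Agent.MP72S

open Finset

private theorem hfin_uu (hfin : S_FinT) {G N P ι : Type} [Group G] [TopologicalSpace G]
    [AddCommGroup N] [DistribMulAction G N] [Fintype ι] [DecidableEq ι] (D : Dat G N P)
    (hD : Ax D) (I : Finset ι) (A : Finset P) : (D.UU I A).Finite := by
  have hpi : (Set.pi Set.univ (fun _ : ι => (A : Set P))).Finite :=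
    Set.Finite.pi fun _ => A.finite_toSet
  have hC : ((fun q : (ι → P) × (ι → P) => fun (i : ι) (σ : G) =>
      if i ∈ I then D.ch (q.1 i) σ + D.ch (q.2 i) σ else 0) ''
      (Set.pi Set.univ (fun _ : ι => (A : Set P)) ×ˢ
        Set.pi Set.univ (fun _ : ι => (A : Set P)))).Finite := (hpi.prod hpi).image _
  refine Set.Finite.subset (Set.Finite.biUnion hC
    (t := fun c => (fun F : Finset ι → G → N => (c, F)) ''
      {F : Finset ι → G → N | Sys I c F ∧ (∀ U ⊆ I, IsLocallyConstant (F U) ∧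
        ∀ v, v ∉ A → F U (D.tau v) = 0) ∧ ∀ U, ¬ U ⊆ I → F U = 0})
    fun c _ => (hfin D hD I c A).image _) ?_
  rintro ⟨c, F⟩ ⟨⟨u, v, hu, hv, hc⟩, hF⟩
  rw [Set.mem_iUnion₂]
  refine ⟨c, ⟨(u, v), ⟨fun i _ => hu i, fun i _ => hv i⟩, hc.symm⟩, ⟨F, hF, rfl⟩⟩

theorem tHfin : S_FinT → S_Bas → S_Hfin := by
  intro hfin hbas G N P ι _ _ _ _ _ _ D hD A
  have hV : {t' : N | 2 • t' = 0}.Finite := by
    have := (hbas D hD).2.1 1
    simpa using this
  have hQ : {q : G → ZMod 2 | ∃ u ∈ A, ∃ v ∈ A, q = fun σ => D.ch u σ + D.ch v σ}.Finite := by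
    refine Set.Finite.subset ((A.finite_toSet.prod A.finite_toSet).image
      (fun p : P × P => fun σ : G => D.ch p.1 σ + D.ch p.2 σ)) ?_
    rintro q ⟨u, hu, v, hv, rfl⟩
    exact ⟨(u, v), ⟨hu, hv⟩, rfl⟩
  have hfinS : (⋃ I : Finset ι, (fun p : N × Set (G → ZMod 2) ×
      Set ((ι → G → ZMod 2) × (Finset ι → G → N)) => D.HS I p.1 p.2.1 p.2.2) ''
      ({t' : N | 2 • t' = 0} ×ˢ
        (𝒫 {q : G → ZMod 2 | ∃ u ∈ A, ∃ v ∈ A, q = fun σ => D.ch u σ + D.ch v σ} ×ˢ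
          𝒫 (D.UU I A)))).Finite := by
    refine Set.finite_iUnion fun I => ?_
    exact (hV.prod (hQ.finite_subsets.prod (hfin_uu hfin D hD I A).finite_subsets)).image _
  refine Set.Finite.subset (hfinS.preimage
    (f := fun H : Subgroup G => (H : Set G)) SetLike.coe_injective.injOn) ?_
  rintro H ⟨-, -, I, t', Q, W, ht', hQs, hW, hH⟩
  rw [Set.mem_preimage, Set.mem_iUnion]
  exact ⟨I, (t', Q, W), ⟨ht', hQs, hW⟩, hH.symm⟩

end Pool.Agent.MP72S
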