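import Pool.Agent.Lib.MP_72e2e6_nt.Sm.Br.Spec

/-!
# MP_72e2e6_nt, `Sm/Br`: module Hg (the completion rule for the obstruction functionals)
-/

namespace Pool.Agent.MP72S

open Finset
open Pool.Agent.Lib.MP_72e2e6_nt.Sm.Cnt (vtx Corner CodingData main_ineq)

open Classical in
private theorem Hg_gfn (hOb : S_ObA) {G N P ι : Type} [Group G] [TopologicalSpace G]
    [AddCommGroup N] [DistribMulAction G N] [Fintype ι] [DecidableEq ι] {M : ℕ} (D : Dat G N P)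
    (hD : Ax D) (S : ι → Finset P) (g : Grd P ι M) (s : D.ST ι) (Lam : AddSubgroup (D.J ι → N))
    (ξ : D.J ι → N) (c : P) (p : {i // i ∈ g.I} → Fin M) (hok : D.Ok (g.cf c p))
    (hL : D.Dk (g.cf c p) 1 = Lam) (hp : D.Gp S g s c p) (η : G → N)
    (hη : D.IsH (g.cf c p) ξ η) :
    D.gfn S g s Lam ξ c p = some fun ν => if ν.1 ∈ Lam ∧ ∀ i ∈ g.I, ν.1 (Sum.inr i) = 0 then
      D.ob (g.cf c p) ξ η ν.1 else 0 := by
  have h : D.Gp S g s c p ∧ ∃ η, D.IsH (g.cf c p) ξ η := ⟨hp, η, hη⟩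
  rw [Dat.gfn, dif_pos h]
  congr 1
  funext ν
  by_cases hν : ν.1 ∈ Lam ∧ ∀ i ∈ g.I, ν.1 (Sum.inr i) = 0
  · rw [if_pos hν, if_pos hν]
    exact (hOb D hD (g.cf c p) hok).2.2.2.2 ξ _ _ h.2.choose_spec hη ν.1 (by rw [hL]; exact hν.1)
  · rw [if_neg hν, if_neg hν]

open Classical in
private theorem Hg_main (hE : S_LemE) (hOb : S_ObA) (hCf : S_Cf) (hGdc : S_Gdc)
    {G N P ι : Type} [Group G] [TopologicalSpace G]
    [AddCommGroup N] [DistribMulAction G N] [Fintype ι] [DecidableEq ι] {M : ℕ} (D : Dat G N P)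
    (hD : Ax D) (S : ι → Finset P) (g : Grd P ι M) (s : D.ST ι) (hg : D.Gok S g)
    (Lam : AddSubgroup (D.J ι → N))
    (hLam : ∀ c p, D.Gp S g s c p → D.Dk (g.cf c p) 1 = Lam) (ξ : D.J ι → N) (h2 : 2 ≤ #g.I)
    (hξ : 2 ^ (#g.I - 1) • ξ = 0) (hξ' : ∀ i ∈ g.I, 2 ^ (#g.I - 2) • ξ (Sum.inr i) = 0)
    (c : P) (x p : {i // i ∈ g.I} → Fin M) (hxp : ∀ i, x i < p i)
    (hv : ∀ w, D.Gp S g s c (vtx x p w))
    (hn : ∀ w, w ≠ (fun _ => true) → D.gfn S g s Lam ξ c (vtx x p w) ≠ none) :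
    D.gfn S g s Lam ξ c p = some fun ν => ∑ w ∈ g.I.powerset.erase ∅,
      (D.gfn S g s Lam ξ c (vtx x p fun i => decide (i.1 ∉ w))).getD 0 ν := by
  have hb := hg.hb
  have hmx : ∀ w : Finset ι, mx (g.cf c p) (g.cf c x) w =
      g.cf c (vtx x p fun i => decide (i.1 ∉ w)) := by
    intro w
    have h1 := (hCf g hb c c x p).1 w
    rw [ite_self] at h1
    exact h1
  have hGd : D.Gd (g.cf c p) (g.cf c x) g.I := (hGdc D S g s hg c c x p hxp).1 hv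
  have hokv : ∀ w, D.Ok (g.cf c (vtx x p w)) := fun w => hg.ok _ (hv w).1
  have htop : vtx x p (fun _ => true) = p := by
    funext i
    simp [vtx]
  have hp : D.Gp S g s c p := by
    have := hv (fun _ => true)
    rwa [htop] at this
  have hok : D.Ok (g.cf c p) := hg.ok _ hp.1
  have hex : ∀ w ⊆ g.I, w.Nonempty →
      ∃ η, D.IsH (g.cf c (vtx x p fun i => decide (i.1 ∉ w))) ξ η := by
    intro w hw hwn
    obtain ⟨i, hi⟩ := hwn
    have hne : (fun i : {i // i ∈ g.I} => decide (i.1 ∉ w)) ≠ fun _ => true := by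
      intro h
      have h3 := congrFun h ⟨i, hw hi⟩
      simp [hi] at h3
    have h4 := hn _ hne
    by_contra hcon
    apply h4
    rw [Dat.gfn, dif_neg]
    exact fun h5 => hcon h5.2
  obtain ⟨η, hη⟩ : ∃ η : (ι → P) → G → N, ∀ w ⊆ g.I, w.Nonempty →
      D.IsH (mx (g.cf c p) (g.cf c x) w) ξ (η (mx (g.cf c p) (g.cf c x) w)) := by
    refine ⟨fun z => if h : ∃ η, D.IsH z ξ η then h.choose else 0, fun w hw hwn => ?_⟩
    have h5 : ∃ η, D.IsH (mx (g.cf c p) (g.cf c x) w) ξ η := by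
      rw [hmx]
      exact hex w hw hwn
    dsimp only
    rw [dif_pos h5]
    exact h5.choose_spec
  obtain ⟨η', h6, h7⟩ := hE D hD (g.cf c p) (g.cf c x) g.I hGd h2 ξ hξ hξ' η hη
  rw [Hg_gfn hOb D hD S g s Lam ξ c p hok (hLam c p hp) hp η' h6]
  congr 1
  funext ν
  have h8 : ∀ w ∈ g.I.powerset.erase ∅,
      (D.gfn S g s Lam ξ c (vtx x p fun i => decide (i.1 ∉ w))).getD 0 ν =
        if ν.1 ∈ Lam ∧ ∀ i ∈ g.I, ν.1 (Sum.inr i) = 0 then
          D.ob (mx (g.cf c p) (g.cf c x) w) ξ (η (mx (g.cf c p) (g.cf c x) w)) ν.1 else 0 := by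
    intro w hw
    rw [Finset.mem_erase, Finset.mem_powerset] at hw
    have h9 := hη w hw.2 (Finset.nonempty_of_ne_empty hw.1)
    rw [hmx] at h9
    rw [Hg_gfn hOb D hD S g s Lam ξ c _ (hokv _) (hLam c _ (hv _)) (hv _) _ h9, hmx]
    rfl
  rw [Finset.sum_congr rfl h8]
  by_cases hν : ν.1 ∈ Lam ∧ ∀ i ∈ g.I, ν.1 (Sum.inr i) = 0
  · simp only [if_pos hν]
    refine h7 ν.1 (fun w _ => ?_) hν.2
    rw [hmx, hLam c _ (hv _)]
    exact hν.1
  · simp only [if_neg hν, Finset.sum_const_zero]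

theorem tHg : S_LemE → S_ObA → S_Cf → S_Gdc → S_Hg := by
  intro hE hOb hCf hGdc G N P ι _ _ _ _ _ _ M D hD S g s hg Lam hLam ξ h2 hξ hξ' c c' x p hxp hv
    hv' hn
  rw [Hg_main hE hOb hCf hGdc D hD S g s hg Lam hLam ξ h2 hξ hξ' c x p hxp hv
      (fun w hw => (hn w hw).1),
    Hg_main hE hOb hCf hGdc D hD S g s hg Lam hLam ξ h2 hξ hξ' c' x p hxp hv'
      (fun w hw => by rw [← (hn w hw).2]; exact (hn w hw).1)]
  congr 1
  funext ν
  refine Finset.sum_congr rfl fun w hw => ?_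
  rw [Finset.mem_erase, Finset.mem_powerset] at hw
  obtain ⟨i, hi⟩ := Finset.nonempty_of_ne_empty hw.1
  have hne : (fun i : {i // i ∈ g.I} => decide (i.1 ∉ w)) ≠ fun _ => true := by
    intro h
    have h3 := congrFun h ⟨i, hw.2 hi⟩
    simp [hi] at h3
  rw [(hn _ hne).2]

end Pool.Agent.MP72S
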