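import Pool.Agent.Lib.MP_72e2e6_nt.Sm.Br.Spec

/-!
# MP_72e2e6_nt, `Sm/Br`: module Hgr (the subgroups of the class bound)
-/

namespace Pool.Agent.MP72S

open Finset
open Pool.Agent.Lib.MP_72e2e6_nt.Sm.Cnt (vtx Corner CodingData main_ineq)

private theorem Hgr_one {G : Type} [Group G] {q : G → ZMod 2}
    (h : ∀ σ τ, q (σ * τ) = q σ + q τ) : q 1 = 0 := by
  have h1 := h 1 1
  rw [mul_one] at h1
  exact left_eq_add.1 h1

private theorem Hgr_inv {G : Type} [Group G] {q : G → ZMod 2}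
    (h : ∀ σ τ, q (σ * τ) = q σ + q τ) {x : G} (hx : q x = 0) : q x⁻¹ = 0 := by
  have h1 := h x x⁻¹
  rw [mul_inv_cancel, Hgr_one h, hx, zero_add] at h1
  exact h1.symm

private theorem Hgr_conj {G : Type} [Group G] {q : G → ZMod 2}
    (h : ∀ σ τ, q (σ * τ) = q σ + q τ) (n x : G) (hx : q x = 0) : q (n * x * n⁻¹) = 0 := by
  have h1 := h n n⁻¹
  rw [mul_inv_cancel, Hgr_one h] at h1
  rw [h, h, hx, add_zero, ← h1]

theorem tHgr : S_Nrm → S_Tri → S_Hgr := by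
  classical
  intro hNrm hTri G N P ι α _ _ _ _ _ _ D hD Gb I t' Q A c F ht' hQ hc hS hF g ρ hg hρ
  -- the groups of the systems
  have hK : ∀ p ∈ A, ∃ K : Subgroup G, K.Normal ∧ (K : Set G) = sysK I (c p) (F p) ∧
      (∀ g ∈ K, ∀ h ∈ K, F p I (g * h) = F p I g + F p I h) ∧
      (∀ g ∈ K, ∀ h, F p I (h * g * h⁻¹) = F p I g) ∧ IsOpen (K : Set G) := by
    intro p hp
    obtain ⟨K, k1, k2, k3, k4, k5⟩ := hNrm I (c p) (F p) (hS p hp)
    exact ⟨K, k1, k2, k3, k4, k5 (hc p hp) (hF p hp)⟩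
  have mem1 : ∀ p ∈ A, (1 : G) ∈ sysK I (c p) (F p) := by
    intro p hp
    obtain ⟨K, k1, k2, k3, k4, k5⟩ := hK p hp
    rw [← k2]
    exact K.one_mem
  have memm : ∀ p ∈ A, ∀ a b : G, a ∈ sysK I (c p) (F p) → b ∈ sysK I (c p) (F p) →
      a * b ∈ sysK I (c p) (F p) := by
    intro p hp a b
    obtain ⟨K, k1, k2, k3, k4, k5⟩ := hK p hp
    rw [← k2]
    exact K.mul_mem
  have memi : ∀ p ∈ A, ∀ a : G, a ∈ sysK I (c p) (F p) → a⁻¹ ∈ sysK I (c p) (F p) := by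
    intro p hp a
    obtain ⟨K, k1, k2, k3, k4, k5⟩ := hK p hp
    rw [← k2]
    exact K.inv_mem
  have memc : ∀ p ∈ A, ∀ a : G, a ∈ sysK I (c p) (F p) → ∀ n : G,
      n * a * n⁻¹ ∈ sysK I (c p) (F p) := by
    intro p hp a
    obtain ⟨K, k1, k2, k3, k4, k5⟩ := hK p hp
    rw [← k2]
    exact fun ha n => k1.conj_mem a ha n
  have e00 : D.e 0 t' = 0 := by
    have h1 := hD.e_add 0 0 t' (smul_zero _) (smul_zero _) ht'
    rw [add_zero] at h1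
    exact left_eq_add.1 h1
  obtain ⟨l, hl⟩ : ∃ l : α → G → ZMod 2, l = fun p h => D.e (F p I h) t' := ⟨_, rfl⟩
  have two : ∀ p ∈ A, ∀ h, 2 • F p I h = 0 := fun p hp h => (hS p hp).two I Finset.Subset.rfl h
  have lmul : ∀ p ∈ A, ∀ a ∈ sysK I (c p) (F p), ∀ b ∈ sysK I (c p) (F p),
      l p (a * b) = l p a + l p b := by
    intro p hp a ha b hb
    obtain ⟨K, k1, k2, k3, k4, k5⟩ := hK p hp
    rw [← k2] at ha hb
    rw [hl]
    dsimp only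
    rw [k3 a ha b hb, hD.e_add _ _ _ (two p hp a) (two p hp b) ht']
  have lone : ∀ p ∈ A, l p 1 = 0 := by
    intro p hp
    have h1 := lmul p hp 1 (mem1 p hp) 1 (mem1 p hp)
    rw [mul_one] at h1
    exact left_eq_add.1 h1
  have linv : ∀ p ∈ A, ∀ a ∈ sysK I (c p) (F p), l p a = 0 → l p a⁻¹ = 0 := by
    intro p hp a ha h
    have h1 := lmul p hp a ha a⁻¹ (memi p hp a ha)
    rw [mul_inv_cancel, lone p hp, h, zero_add] at h1
    exact h1.symm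
  have lconj : ∀ p ∈ A, ∀ a ∈ sysK I (c p) (F p), ∀ n, l p (n * a * n⁻¹) = l p a := by
    intro p hp a ha n
    obtain ⟨K, k1, k2, k3, k4, k5⟩ := hK p hp
    rw [← k2] at ha
    rw [hl]
    dsimp only
    rw [k4 a ha n]
  -- the group K₀
  obtain ⟨K₀, hK₀⟩ : ∃ K₀ : Subgroup G, ∀ h, h ∈ K₀ ↔ (∀ q ∈ Q, q h = 0) ∧
      ∀ p ∈ A, h ∈ sysK I (c p) (F p) := by
    refine ⟨{ carrier := {h | (∀ q ∈ Q, q h = 0) ∧ ∀ p ∈ A, h ∈ sysK I (c p) (F p)}
              one_mem' := ⟨fun q hq => Hgr_one (hQ q hq).mul, mem1⟩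
              mul_mem' := ?_
              inv_mem' := ?_ }, fun h => Iff.rfl⟩
    · rintro a b ⟨a1, a2⟩ ⟨b1, b2⟩
      refine ⟨fun q hq => ?_, fun p hp => memm p hp a b (a2 p hp) (b2 p hp)⟩
      rw [(hQ q hq).mul, a1 q hq, b1 q hq, add_zero]
    · rintro a ⟨a1, a2⟩
      exact ⟨fun q hq => Hgr_inv (hQ q hq).mul (a1 q hq), fun p hp => memi p hp a (a2 p hp)⟩
  obtain ⟨H, hH⟩ : ∃ H : Subgroup G, ∀ h, h ∈ H ↔ h ∈ K₀ ∧ ∀ p ∈ A, l p h = 0 := by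
    refine ⟨{ carrier := {h | h ∈ K₀ ∧ ∀ p ∈ A, l p h = 0}
              one_mem' := ⟨K₀.one_mem, lone⟩
              mul_mem' := ?_
              inv_mem' := ?_ }, fun h => Iff.rfl⟩
    · rintro a b ⟨a1, a2⟩ ⟨b1, b2⟩
      refine ⟨K₀.mul_mem a1 b1, fun p hp => ?_⟩
      rw [lmul p hp a (((hK₀ a).1 a1).2 p hp) b (((hK₀ b).1 b1).2 p hp), a2 p hp, b2 p hp,
        add_zero]
    · rintro a ⟨a1, a2⟩
      exact ⟨K₀.inv_mem a1, fun p hp => linv p hp a (((hK₀ a).1 a1).2 p hp) (a2 p hp)⟩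
  have hK₀o : IsOpen (K₀ : Set G) := by
    have h1 : (K₀ : Set G) = (⋂ q ∈ Q, {h | q h = 0}) ∩ ⋂ p ∈ A, sysK I (c p) (F p) := by
      ext h
      rw [SetLike.mem_coe, hK₀]
      simp only [Set.mem_inter_iff, Set.mem_iInter, Set.mem_ofPred_eq]
    rw [h1]
    refine IsOpen.inter ?_ ?_
    · refine isOpen_biInter_finset fun q hq => ?_
      exact (hQ q hq).lc.isOpen_fiber 0
    · refine isOpen_biInter_finset fun p hp => ?_
      obtain ⟨K, k1, k2, k3, k4, k5⟩ := hK p hp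
      rw [← k2]
      exact k5
  have hHo : IsOpen (H : Set G) := by
    have h1 : (H : Set G) = (K₀ : Set G) ∩ ⋂ p ∈ A, {h | l p h = 0} := by
      ext h
      rw [SetLike.mem_coe, hH]
      simp only [Set.mem_inter_iff, Set.mem_iInter, Set.mem_ofPred_eq, SetLike.mem_coe]
    rw [h1]
    refine IsOpen.inter hK₀o ?_
    refine isOpen_biInter_finset fun p hp => ?_
    have h2 : IsLocallyConstant (l p) := by
      rw [hl]
      exact (hF p hp I Finset.Subset.rfl).comp (fun z => D.e z t')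
    exact h2.isOpen_fiber 0
  refine ⟨K₀, H, hK₀o, ⟨?_⟩, hHo, hK₀, ?_, ?_⟩
  · intro a ha n
    rw [hH] at ha ⊢
    obtain ⟨a1, a2⟩ := ha
    rw [hK₀] at a1
    refine ⟨(hK₀ _).2 ⟨fun q hq => Hgr_conj (hQ q hq).mul n a (a1.1 q hq),
      fun p hp => memc p hp a (a1.2 p hp) n⟩, fun p hp => ?_⟩
    rw [lconj p hp a (a1.2 p hp) n, a2 p hp]
  · intro h
    rw [hH, hK₀, hl]
    constructor
    · rintro ⟨⟨h1, h2⟩, h3⟩
      exact ⟨h1, fun p hp => ⟨h2 p hp, h3 p hp⟩⟩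
    · rintro ⟨h1, h2⟩
      exact ⟨⟨h1, fun p hp => (h2 p hp).1⟩, fun p hp => (h2 p hp).2⟩
  · refine hTri Gb K₀ H A l g ρ ?_ hH ?_ ?_
    · intro p hp h h1 h' h1'
      exact lmul p hp h (((hK₀ h).1 h1).2 p hp) h' (((hK₀ h').1 h1').2 p hp)
    · intro p hp
      obtain ⟨g1, g2, g3, g4⟩ := hg p hp
      refine ⟨(hK₀ _).2 ⟨g1, g2⟩, g3, ?_⟩
      rw [hl]
      exact g4
    · intro p hp p' hp' h
      rw [hl] at h
      exact hρ p hp p' hp' h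

end Pool.Agent.MP72S
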