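import Pool.Agent.Lib.MP_72e2e6_nt.Sm.Br.Spec

/-!
# MP_72e2e6_nt, `Sm/Br`: module `Hl` (the completion rule for the sets `L`)
-/

namespace Pool.Agent.MP72S

open Finset
open Pool.Agent.Lib.MP_72e2e6_nt.Sm.Cnt (vtx Corner)

private theorem Hl_gp {G N P ι : Type} [Group G] [TopologicalSpace G] [AddCommGroup N]
    [DistribMulAction G N] [Fintype ι] [DecidableEq ι] {M : ℕ} {D : Dat G N P}
    {S : ι → Finset P} {g : Grd P ι M} {s : D.ST ι} {K : ℕ} {f : D.J ι → N} {c : P}
    {p : {i // i ∈ g.I} → Fin M} (h : D.Yp S g K s f c p) : D.Gp S g s c p :=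
  ⟨h.1.1, h.1.2.1⟩

theorem tHl : S_RulL → S_Cf → S_Gdc → S_Hl := by
  intro hRul hCf hGdc G N P ι _ _ _ _ _ _ _ M D hax hax2 S g s hG K Lam f γ t' hC hD1 τ hτ c c' x p
    hxp hY hY' hL hp
  classical
  by_cases hcc : c = c'
  · subst hcc
    exact hp
  have htop : vtx x p (fun _ => true) = p := by
    funext i
    simp [vtx]
  have hYt : D.Yp S g K s f c' p := by
    have := hY' (fun _ => true)
    rwa [htop] at this
  have hYt' : D.Yp S g K s f c p := by
    have := hY (fun _ => true)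
    rwa [htop] at this
  have hb : g.b ∉ g.I := hC.hb
  have hGd : D.Gd (g.cf c' p) (g.cf c x) (insert g.b g.I) :=
    (hGdc D S g s hG c c' x p hxp).2 hcc (fun w => Hl_gp (hY w)) (fun w => Hl_gp (hY' w))
  have hcard : #(insert g.b g.I) = K + 1 := by
    rw [card_insert_of_notMem hb, hC.cK]
  have hK := hC.hK
  have hf2 : 2 • f = 0 := hC.lam2 f hC.fL
  have hτK : 2 ^ K • τ = 0 := by
    have : 2 ^ K = 2 * 2 ^ (K - 1) := by
      rw [← pow_succ', Nat.sub_add_cancel hK]
    rw [this, mul_smul, hτ, hf2]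
  have hmx : ∀ w : Finset ι, mx (g.cf c' p) (g.cf c x) w =
      g.cf (if g.b ∈ w then c else c') (vtx x p fun i => decide (i.1 ∉ w)) :=
    (hCf g hb c c' x p).1
  have hgpw : ∀ w : Finset ι, D.Gp S g s (if g.b ∈ w then c else c')
      (vtx x p fun i => decide (i.1 ∉ w)) := by
    intro w
    by_cases hbw : g.b ∈ w
    · rw [if_pos hbw]
      exact Hl_gp (hY _)
    · rw [if_neg hbw]
      exact Hl_gp (hY' _)
  have hDw : ∀ w : Finset ι, D.Dk (mx (g.cf c' p) (g.cf c x) w) 1 = Lam := by
    intro w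
    rw [hmx w]
    exact hD1 _ _ (hgpw w)
  have hDX : D.Dk (g.cf c' p) 1 = Lam := hD1 _ _ (Hl_gp hYt)
  have hex : ∀ w ⊆ insert g.b g.I, w.Nonempty →
      ∃ t ∈ D.Z (mx (g.cf c' p) (g.cf c x) w), 2 • t = τ := by
    intro w hw hne
    rw [hmx w]
    by_cases hbw : g.b ∈ w
    · rw [if_pos hbw]
      by_cases hall : (fun i : {i // i ∈ g.I} => decide (i.1 ∉ w)) = fun _ => true
      · rw [hall, htop]
        exact hp.2
      · exact (hL _ hall).1.2
    · rw [if_neg hbw]
      have hall : (fun i : {i // i ∈ g.I} => decide (i.1 ∉ w)) ≠ fun _ => true := by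
        intro heq
        obtain ⟨i, hi⟩ := hne
        have hiI : i ∈ g.I := by
          rcases mem_insert.1 (hw hi) with h | h
          · exact absurd (h ▸ hi) hbw
          · exact h
        have := congrFun heq ⟨i, hiI⟩
        simp [hi] at this
      exact (hL _ hall).2.2
  let t : (ι → P) → D.J ι → N := fun z =>
    if h : ∃ t ∈ D.Z z, 2 • t = τ then h.choose else 0
  have ht : ∀ w ⊆ insert g.b g.I, w.Nonempty →
      t (mx (g.cf c' p) (g.cf c x) w) ∈ D.Z (mx (g.cf c' p) (g.cf c x) w) ∧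
        2 • t (mx (g.cf c' p) (g.cf c x) w) = τ := by
    intro w hw hne
    have h := hex w hw hne
    have : t (mx (g.cf c' p) (g.cf c x) w) = h.choose := dif_pos h
    rw [this]
    exact h.choose_spec
  have hmain := hRul D hax hax2 (g.cf c' p) (g.cf c x) (insert g.b g.I) g.b hGd
    (mem_insert_self _ _) (by rw [hcard]; omega) τ (by rw [hcard]; exact hτK) (by
      intro i hi
      rw [hcard, show K + 1 - 2 = K - 1 by omega]
      have h1 : 2 ^ (K - 1) • τ (Sum.inr i) = f (Sum.inr i) := by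
        rw [← hτ, Pi.smul_apply]
      rw [h1]
      rcases mem_insert.1 hi with h | h
      · rw [h]
        exact hC.fb
      · exact hC.fI i h) t ht (by
      rw [hcard, show K + 1 - 2 = K - 1 by omega, hτ]
      exact hYt.2) (by
      intro w _
      rw [hDw w, hDX]) γ t' hC.two (by
      rw [hDX]
      exact hC.add) hC.gT (by
      rw [hDX]
      exact hC.g0) (by
      rw [hDX]
      intro ν hν
      obtain ⟨u, hu, h⟩ := hC.com ν hν
      refine ⟨u, hu, fun i hi => ?_⟩
      rw [erase_insert hb] at hi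
      exact h i hi) (by
      rw [hDX, erase_insert hb]
      exact hC.pat) (by
      rw [hcard, Nat.add_sub_cancel, hYt.1.2.2.2]
      exact hC.gO)
  exact ⟨hYt, hmain⟩

end Pool.Agent.MP72S
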