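import Pool.Agent.Lib.MP_72e2e6_nt.Sm.Br.Spec

/-!
# MP_72e2e6_nt, `Sm/Br`: module Hz (the state is determined by the code and the functionals)
-/

namespace Pool.Agent.MP72S

open Finset
open Pool.Agent.Lib.MP_72e2e6_nt.Sm.Cnt (vtx Corner CodingData main_ineq)

open Classical in
private theorem Hz_gfn (hOb : S_ObA) {G N P ι : Type} [Group G] [TopologicalSpace G]
    [AddCommGroup N] [DistribMulAction G N] [Fintype ι] [DecidableEq ι] {M : ℕ} (D : Dat G N P)
    (hD : Ax D) (S : ι → Finset P) (g : Grd P ι M) (s : D.ST ι) (Lam : AddSubgroup (D.J ι → N))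
    (ξ : D.J ι → N) (c : P) (p : {i // i ∈ g.I} → Fin M) (hok : D.Ok (g.cf c p))
    (hL : D.Dk (g.cf c p) 1 = Lam) (hp : D.Gp S g s c p) (η : G → N)
    (hη : D.IsH (g.cf c p) ξ η) :
    D.gfn S g s Lam ξ c p = some fun ν => if ν.1 ∈ Lam ∧ ∀ i ∈ g.I, ν.1 (Sum.inr i) = 0 then
      D.ob (g.cf c p) ξ η ν.1 else 0 := by
  have h : D.Gp S g s c p ∧ ∃ η, D.IsH (g.cf c p) ξ η := ⟨hp, η, hη⟩
  rw [Dat.gfn, dif_pos h]
  congr 1
  funext ν
  by_cases hν : ν.1 ∈ Lam ∧ ∀ i ∈ g.I, ν.1 (Sum.inr i) = 0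
  · rw [if_pos hν, if_pos hν]
    exact (hOb D hD (g.cf c p) hok).2.2.2.2 ξ _ _ h.2.choose_spec hη ν.1 (by rw [hL]; exact hν.1)
  · rw [if_neg hν, if_neg hν]

private theorem Hz_ex {G N P ι : Type} [Group G] [TopologicalSpace G]
    [AddCommGroup N] [DistribMulAction G N] [Fintype ι] [DecidableEq ι] {M : ℕ} (D : Dat G N P)
    (S : ι → Finset P) (g : Grd P ι M) (s : D.ST ι) (Lam : AddSubgroup (D.J ι → N))
    (ξ : D.J ι → N) (c : P) (p : {i // i ∈ g.I} → Fin M) (hn : D.gfn S g s Lam ξ c p ≠ none) :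
    ∃ η, D.IsH (g.cf c p) ξ η := by
  classical
  by_contra hcon
  apply hn
  rw [Dat.gfn, dif_neg]
  exact fun h5 => hcon h5.2

theorem tHz : S_Det → S_O1 → S_ObA → S_Dom → S_Hz := by
  classical
  intro hDet hO1 hOb hDom G N P ι _ _ _ _ _ _ _ M D hD hD2 S g s hg K Lam f γ t' hCho hLam c c'
    hcod hgf p hZ
  obtain ⟨hXt, hXs, hXD, hXO⟩ := hZ
  have hGp : D.Gp S g s c p := ⟨hXt, hXs⟩
  have hGp' : D.Gp S g s c' p := hDom D hD S g s hg c c' hcod p hGp
  have hok := hg.ok _ hXt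
  have hok' := hg.ok _ hGp'.1
  have hL := hLam c p hGp
  have hL' := hLam c' p hGp'
  have hLL : D.Dk (g.cf c p) 1 = D.Dk (g.cf c' p) 1 := by rw [hL, hL']
  have key : D.Dk (g.cf c p) K = D.Dk (g.cf c' p) K ∧ D.O (g.cf c p) K = D.O (g.cf c' p) K := by
    by_cases hK : K = 1
    · subst hK
      exact ⟨hLL, by rw [hO1 D hD _ hok, hO1 D hD _ hok']⟩
    · have hK2 : 2 ≤ K := by
        have := hCho.hK
        omega
      have hIn : g.I.Nonempty := by
        rw [← Finset.card_pos, hCho.cK]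
        omega
      refine hDet D hD hD2 _ _ hok hok' hLL g.I hIn ?_ K hK2 ?_
      · intro ν hν
        rw [hL] at hν
        exact hCho.com ν hν
      · intro ξ hξ hξ'
        have h1 := congrFun (hgf ξ hK2 hξ hξ') p
        refine ⟨⟨?_, ?_⟩, ?_⟩
        · rintro ⟨η, hη⟩
          apply Hz_ex D S g s Lam ξ c' p
          rw [← h1, Hz_gfn hOb D hD S g s Lam ξ c p hok hL hGp η hη]
          exact Option.some_ne_none _
        · rintro ⟨η, hη⟩
          apply Hz_ex D S g s Lam ξ c p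
          rw [h1, Hz_gfn hOb D hD S g s Lam ξ c' p hok' hL' hGp' η hη]
          exact Option.some_ne_none _
        · intro η η' hη hη' ν hν hνI
          rw [hL] at hν
          rw [Hz_gfn hOb D hD S g s Lam ξ c p hok hL hGp η hη,
            Hz_gfn hOb D hD S g s Lam ξ c' p hok' hL' hGp' η' hη', Option.some_inj] at h1
          have h2 := congrFun h1 ⟨ν, hCho.lam2 ν hν⟩
          dsimp only at h2
          rw [if_pos ⟨hν, hνI⟩, if_pos ⟨hν, hνI⟩] at h2
          exact h2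
  exact ⟨hGp'.1, hGp'.2, by rw [← key.1, hXD], by rw [← key.2, hXO]⟩

end Pool.Agent.MP72S
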