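import Pool.Agent.Lib.MP_72e2e6_nt.Sm.Br.Spec

/-!
# MP_72e2e6_nt, `Sm/Br`: summation over the other primes
-/

namespace Pool.Agent.MP72S

open Finset

/-- the configuration with the parts `q`, `c` and `R` -/
private def sptC {P ι : Type} [DecidableEq ι] (I : Finset ι) (b : ι) (R : ι → P)
    (u : {i // i ∈ I} → P) (c : P) : ι → P :=
  fun j => if h : j ∈ I then u ⟨j, h⟩ else if j = b then c else R j

/-- the extension of a function -/
private def sptE {P ι : Type} [DecidableEq ι] (C : Finset ι) (p0 : P) (ρ : {j // j ∈ C} → P) :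
    ι → P := fun j => if hj : j ∈ C then ρ ⟨j, hj⟩ else p0

private theorem spt_key {P ι : Type} [Fintype ι] [DecidableEq ι] [DecidableEq P]
    (S : ι → Finset P) (I C : Finset ι) (b : ι) (hb : b ∉ I)
    (hC : ∀ j, j ∈ C ↔ j ∉ I ∧ j ≠ b) (p0 : P) (y : (ι → P) → Prop) :
    ({x | (∀ i, x i ∈ S i) ∧ y x}.ncard : ℕ) =
      ∑ ρ ∈ Fintype.piFinset (fun j : {j // j ∈ C} => S j.1),
        Nat.card {q : ({i // i ∈ I} → P) × {c // c ∈ S b} // (∀ i, q.1 i ∈ S i.1) ∧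
          y (sptC I b (sptE C p0 ρ) q.1 q.2.1)} := by
  classical
  have h1 : {x | (∀ i, x i ∈ S i) ∧ y x} = (((Fintype.piFinset S).filter y : Finset (ι → P)) :
      Set (ι → P)) := by
    ext x
    rw [Set.mem_ofPred_eq, mem_coe, mem_filter, Fintype.mem_piFinset]
  rw [h1, Set.ncard_coe_finset]
  rw [card_eq_sum_card_fiberwise
    (f := fun (x : ι → P) (j : {j // j ∈ C}) => x j.1)
    (t := Fintype.piFinset (fun j : {j // j ∈ C} => S j.1))
    (by
      intro x hx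
      rw [mem_coe, mem_filter, Fintype.mem_piFinset] at hx
      rw [mem_coe, Fintype.mem_piFinset]
      intro j
      exact hx.1 j.1)]
  refine sum_congr rfl fun ρ hρ => ?_
  rw [Fintype.mem_piFinset] at hρ
  have hfst : ∀ (u : {i // i ∈ I} → P) (c : P) (R : ι → P) (i : ι) (hi : i ∈ I),
      sptC I b R u c i = u ⟨i, hi⟩ := by
    intro u c R i hi
    unfold sptC
    rw [dif_pos hi]
  have hsnd : ∀ (u : {i // i ∈ I} → P) (c : P) (R : ι → P), sptC I b R u c b = c := by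
    intro u c R
    unfold sptC
    rw [dif_neg hb, if_pos rfl]
  have htrd : ∀ (u : {i // i ∈ I} → P) (c : P) (R : ι → P) (j : ι), j ∉ I → j ≠ b →
      sptC I b R u c j = R j := by
    intro u c R j hj hjb
    unfold sptC
    rw [dif_neg hj, if_neg hjb]
  have hext : ∀ j (hj : j ∈ C), sptE C p0 ρ j = ρ ⟨j, hj⟩ := by
    intro j hj
    unfold sptE
    rw [dif_pos hj]
  symm
  rw [← Nat.card_eq_finsetCard]
  refine Nat.card_congr (Equiv.ofBijective
    (fun q => ⟨sptC I b (sptE C p0 ρ) q.1.1 q.1.2.1, ?_⟩) ⟨?_, ?_⟩)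
  · rw [mem_filter, mem_filter, Fintype.mem_piFinset]
    refine ⟨⟨fun i => ?_, q.2.2⟩, ?_⟩
    · by_cases hi : i ∈ I
      · rw [hfst _ _ _ i hi]
        exact q.2.1 ⟨i, hi⟩
      · by_cases hib : i = b
        · rw [hib, hsnd]
          exact q.1.2.2
        · rw [htrd _ _ _ i hi hib, hext i ((hC i).2 ⟨hi, hib⟩)]
          exact hρ ⟨i, _⟩
    · funext j
      have hj := (hC j.1).1 j.2
      rw [htrd _ _ _ j.1 hj.1 hj.2, hext j.1 j.2]
  · rintro ⟨⟨u, c⟩, hq⟩ ⟨⟨u', c'⟩, hq'⟩ heq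
    have heq' := congrArg Subtype.val heq
    have hu : u = u' := by
      funext i
      have h2 := congrFun heq' i.1
      change sptC I b _ u c.1 i.1 = sptC I b _ u' c'.1 i.1 at h2
      rw [hfst _ _ _ i.1 i.2, hfst _ _ _ i.1 i.2] at h2
      exact h2
    have hc : c = c' := by
      have h2 := congrFun heq' b
      change sptC I b _ u c.1 b = sptC I b _ u' c'.1 b at h2
      rw [hsnd, hsnd] at h2
      exact Subtype.ext h2
    subst hu
    subst hc
    rfl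
  · rintro ⟨x, hx⟩
    rw [mem_filter, mem_filter, Fintype.mem_piFinset] at hx
    obtain ⟨⟨hxS, hxy⟩, hxρ⟩ := hx
    have hxe : sptC I b (sptE C p0 ρ) (fun i => x i.1) (x b) = x := by
      funext i
      by_cases hi : i ∈ I
      · rw [hfst _ _ _ i hi]
      · by_cases hib : i = b
        · rw [hib, hsnd]
        · rw [htrd _ _ _ i hi hib, hext i ((hC i).2 ⟨hi, hib⟩), ← hxρ]
    refine ⟨⟨(fun i => x i.1, ⟨x b, hxS b⟩), fun i => hxS i.1, ?_⟩, Subtype.ext hxe⟩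
    change y (sptC I b _ (fun i => x i.1) (x b))
    rw [hxe]
    exact hxy

private theorem spt_prod {P ι : Type} [Fintype ι] [DecidableEq ι] (S : ι → Finset P)
    (I C : Finset ι) (b : ι) (hb : b ∉ I) (hC : ∀ j, j ∈ C ↔ j ∉ I ∧ j ≠ b) :
    ∏ i, (#(S i) : ℝ) = (#(S b) : ℝ) * (∏ i : {i // i ∈ I}, (#(S i.1) : ℝ)) *
      ∏ j : {j // j ∈ C}, (#(S j.1) : ℝ) := by
  rw [prod_coe_sort I (fun i => (#(S i) : ℝ)), prod_coe_sort C (fun i => (#(S i) : ℝ))]
  have h1 : (univ : Finset ι) = I ∪ insert b C := by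
    ext j
    simp only [mem_univ, mem_union, mem_insert, hC, true_iff]
    by_cases hj : j ∈ I
    · exact Or.inl hj
    · by_cases hjb : j = b
      · exact Or.inr (Or.inl hjb)
      · exact Or.inr (Or.inr ⟨hj, hjb⟩)
  have h2 : Disjoint I (insert b C) := by
    rw [disjoint_left]
    intro j hj hj'
    rw [mem_insert, hC] at hj'
    rcases hj' with rfl | ⟨h3, -⟩
    · exact hb hj
    · exact h3 hj
  have h3 : b ∉ C := by
    rw [hC]
    rintro ⟨-, h4⟩
    exact h4 rfl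
  calc ∏ i, (#(S i) : ℝ)
      = ∏ i ∈ I ∪ insert b C, (#(S i) : ℝ) := by rw [← h1]
    _ = _ := by
        rw [prod_union h2, prod_insert h3]
        ring

theorem tSpt : S_Spt := by
  classical
  intro P ι _ _ _ S I b hb z y κ ε hκ hε h
  rcases isEmpty_or_nonempty P with hP | ⟨⟨p0⟩⟩
  · have h1 : {x : ι → P | (∀ i, x i ∈ S i) ∧ y x} = ∅ := by
      ext x
      exact (hP.false (x b)).elim
    rw [h1, Set.ncard_empty, Nat.cast_zero]
    have h2 : (0 : ℝ) ≤ ∏ i, (#(S i) : ℝ) := prod_nonneg fun _ _ => Nat.cast_nonneg _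
    positivity
  obtain ⟨C, hC⟩ : ∃ C : Finset ι, ∀ j, j ∈ C ↔ j ∉ I ∧ j ≠ b :=
    ⟨univ.filter (fun j => j ∉ I ∧ j ≠ b), fun j => by
      rw [mem_filter]
      exact ⟨fun h => h.2, fun h => ⟨mem_univ _, h⟩⟩⟩
  rw [spt_key S I C b hb hC p0 y, spt_key S I C b hb hC p0 z, spt_prod S I C b hb hC]
  have h1 : ∀ ρ ∈ Fintype.piFinset (fun j : {j // j ∈ C} => S j.1),
      (Nat.card {q : ({i // i ∈ I} → P) × {c // c ∈ S b} // (∀ i, q.1 i ∈ S i.1) ∧
          y (sptC I b (sptE C p0 ρ) q.1 q.2.1)} : ℝ) ≤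
        κ * (Nat.card {q : ({i // i ∈ I} → P) × {c // c ∈ S b} // (∀ i, q.1 i ∈ S i.1) ∧
          z (sptC I b (sptE C p0 ρ) q.1 q.2.1)} : ℝ) +
        ε * #(S b) * ∏ i : {i // i ∈ I}, (#(S i.1) : ℝ) := by
    intro ρ hρ
    rw [Fintype.mem_piFinset] at hρ
    refine h (sptE C p0 ρ) ?_
    intro j hj hjb
    unfold sptE
    rw [dif_pos ((hC j).2 ⟨hj, hjb⟩)]
    exact hρ ⟨j, _⟩
  rw [Nat.cast_sum, Nat.cast_sum]
  refine (sum_le_sum h1).trans ?_
  have h2 : ((#(Fintype.piFinset (fun j : {j // j ∈ C} => S j.1)) : ℕ) : ℝ) =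
      ∏ j : {j // j ∈ C}, (#(S j.1) : ℝ) := by
    rw [Fintype.card_piFinset, Nat.cast_prod]
  rw [sum_add_distrib, ← mul_sum, sum_const, nsmul_eq_mul, h2]
  apply le_of_eq
  ring

end Pool.Agent.MP72S
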