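import Pool.Agent.Lib.MP_72e2e6_nt.Sm.A.Alt
import Pool.Agent.Lib.MP_72e2e6_nt.Sm.A.Bas
import Pool.Agent.Lib.MP_72e2e6_nt.Sm.A.Chi
import Pool.Agent.Lib.MP_72e2e6_nt.Sm.A.CmL
import Pool.Agent.Lib.MP_72e2e6_nt.Sm.A.Cmp
import Pool.Agent.Lib.MP_72e2e6_nt.Sm.A.Com
import Pool.Agent.Lib.MP_72e2e6_nt.Sm.A.Cou
import Pool.Agent.Lib.MP_72e2e6_nt.Sm.A.Det
import Pool.Agent.Lib.MP_72e2e6_nt.Sm.A.Dif
import Pool.Agent.Lib.MP_72e2e6_nt.Sm.A.Dk1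
import Pool.Agent.Lib.MP_72e2e6_nt.Sm.A.Dua
import Pool.Agent.Lib.MP_72e2e6_nt.Sm.A.Fac
import Pool.Agent.Lib.MP_72e2e6_nt.Sm.A.FinT
import Pool.Agent.Lib.MP_72e2e6_nt.Sm.A.Gam
import Pool.Agent.Lib.MP_72e2e6_nt.Sm.A.Gdf
import Pool.Agent.Lib.MP_72e2e6_nt.Sm.A.Hom
import Pool.Agent.Lib.MP_72e2e6_nt.Sm.A.Inj
import Pool.Agent.Lib.MP_72e2e6_nt.Sm.A.Iso
import Pool.Agent.Lib.MP_72e2e6_nt.Sm.A.Ivd
import Pool.Agent.Lib.MP_72e2e6_nt.Sm.A.LemB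
import Pool.Agent.Lib.MP_72e2e6_nt.Sm.A.LemD
import Pool.Agent.Lib.MP_72e2e6_nt.Sm.A.LemE
import Pool.Agent.Lib.MP_72e2e6_nt.Sm.A.Lfx
import Pool.Agent.Lib.MP_72e2e6_nt.Sm.A.LinD
import Pool.Agent.Lib.MP_72e2e6_nt.Sm.A.Msa
import Pool.Agent.Lib.MP_72e2e6_nt.Sm.A.Nrm
import Pool.Agent.Lib.MP_72e2e6_nt.Sm.A.O1
import Pool.Agent.Lib.MP_72e2e6_nt.Sm.A.ObA
import Pool.Agent.Lib.MP_72e2e6_nt.Sm.A.ObR
import Pool.Agent.Lib.MP_72e2e6_nt.Sm.A.Par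
import Pool.Agent.Lib.MP_72e2e6_nt.Sm.A.Psi0
import Pool.Agent.Lib.MP_72e2e6_nt.Sm.A.Rat
import Pool.Agent.Lib.MP_72e2e6_nt.Sm.A.Rcv
import Pool.Agent.Lib.MP_72e2e6_nt.Sm.A.RulL
import Pool.Agent.Lib.MP_72e2e6_nt.Sm.A.Star
import Pool.Agent.Lib.MP_72e2e6_nt.Sm.A.Str0
import Pool.Agent.Lib.MP_72e2e6_nt.Sm.A.Sy1
import Pool.Agent.Lib.MP_72e2e6_nt.Sm.A.SyF
import Pool.Agent.Lib.MP_72e2e6_nt.Sm.A.SyG
import Pool.Agent.Lib.MP_72e2e6_nt.Sm.A.Sym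
import Pool.Agent.Lib.MP_72e2e6_nt.Sm.A.Tai
import Pool.Agent.Lib.MP_72e2e6_nt.Sm.A.Tin
import Pool.Agent.Lib.MP_72e2e6_nt.Sm.A.Tre
import Pool.Agent.Lib.MP_72e2e6_nt.Sm.A.Tri
import Pool.Agent.Lib.MP_72e2e6_nt.Sm.A.Trl
import Pool.Agent.Lib.MP_72e2e6_nt.Sm.A.TyU
import Pool.Agent.Lib.MP_72e2e6_nt.Sm.A.Uq
import Pool.Agent.Lib.MP_72e2e6_nt.Sm.Br.Asm
import Pool.Agent.Lib.MP_72e2e6_nt.Sm.Br.Cf
import Pool.Agent.Lib.MP_72e2e6_nt.Sm.Br.Chs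
import Pool.Agent.Lib.MP_72e2e6_nt.Sm.Br.Cls
import Pool.Agent.Lib.MP_72e2e6_nt.Sm.Br.Coe
import Pool.Agent.Lib.MP_72e2e6_nt.Sm.Br.Dom
import Pool.Agent.Lib.MP_72e2e6_nt.Sm.Br.Gdc
import Pool.Agent.Lib.MP_72e2e6_nt.Sm.Br.Hfin
import Pool.Agent.Lib.MP_72e2e6_nt.Sm.Br.Hg
import Pool.Agent.Lib.MP_72e2e6_nt.Sm.Br.Hgr
import Pool.Agent.Lib.MP_72e2e6_nt.Sm.Br.Hz
import Pool.Agent.Lib.MP_72e2e6_nt.Sm.Br.Hl
import Pool.Agent.Lib.MP_72e2e6_nt.Sm.Br.Pv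
import Pool.Agent.Lib.MP_72e2e6_nt.Sm.Br.Spt

/-!
# MP_72e2e6_nt, `Sm/Br/All`: the main inequality `S_Brg`, without hypotheses

All modules of block A are combined (theorems `aX : S_X`), then the modules of the bridge.
-/

namespace Pool.Agent.MP72S

theorem aAlt : S_Alt := tAlt
theorem aDif : S_Dif := tDif aAlt
theorem aGdf : S_Gdf := tGdf aAlt
theorem aHom : S_Hom := tHom
theorem aInj : S_Inj := tInj aHom
theorem aUq : S_Uq := tUq aInj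
theorem aTin : S_Tin := tTin
theorem aTai : S_Tai := tTai
theorem aChi : S_Chi := tChi aGdf aAlt
theorem aLfx : S_Lfx := tLfx
theorem aLemB : S_LemB := tLemB aAlt aDif aGdf aHom aUq aTai aChi aLfx
theorem aPar : S_Par := tPar aAlt aGdf aLemB
theorem aCmp : S_Cmp := tCmp aAlt aDif
theorem aCmL : S_CmL := tCmL aAlt aGdf aTai aChi
theorem aLemD : S_LemD := tLemD aAlt aGdf aUq aTai aChi aLemB aCmp aCmL
theorem aBas : S_Bas := tBas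
theorem aMsa : S_Msa := tMsa
theorem aIso : S_Iso := tIso aMsa
theorem aRcv : S_Rcv := tRcv aBas
theorem aDk1 : S_Dk1 := tDk1 aTin
theorem aObR : S_ObR := tObR aUq aIso aDk1
theorem aObA : S_ObA := tObA aUq aRcv aDk1 aObR
theorem aIvd : S_Ivd := tIvd
theorem aTrl : S_Trl := tTrl aIvd aMsa
theorem aTre : S_Tre := tTre aUq aTin aTai aDk1 aObR aTrl
theorem aLinD : S_LinD := tLinD
theorem aDua : S_Dua := tDua aHom aTai aBas aMsa aIso aRcv aUq aDk1 aObR aLinD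
theorem aCou : S_Cou := tCou aUq aBas aDk1 aObA
theorem aGam : S_Gam := tGam aDk1 aCou
theorem aLemE : S_LemE :=
  tLemE aAlt aGdf aHom aUq aTai aChi aLemB aCmp aCmL aLemD aRcv aDk1 aObA
theorem aRulL : S_RulL :=
  tRulL aAlt aGdf aHom aUq aTin aTai aChi aLemB aCmp aCmL aLemD aRcv aDk1 aObR aObA aTre aDua
theorem aStar : S_Star := tStar aAlt aDif aGdf aHom aUq aTai aChi aLemB aIso aRcv aDk1
theorem aStr0 : S_Str0 := tStr0 aAlt aUq aTin aTai aChi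
theorem aCom : S_Com := tCom
theorem aNrm : S_Nrm := tNrm
theorem aTri : S_Tri := tTri
theorem aRat : S_Rat := tRat
theorem aFac : S_Fac := tFac aAlt aDif aGdf aUq aLemB aPar
theorem aPsi0 : S_Psi0 := tPsi0 aAlt aGdf aUq aTai aChi aLfx aPar
theorem aFinT : S_FinT := tFinT aHom
theorem aTyU : S_TyU := tTyU aUq aTai
theorem aSym : S_Sym := tSym
theorem aSyG : S_SyG := tSyG aAlt
theorem aSy1 : S_Sy1 := tSy1 aHom aUq aTai aDk1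
theorem aSyF : S_SyF := tSyF aBas
theorem aDet : S_Det := tDet aUq aTin aDk1 aObA aTre aDua
theorem aO1 : S_O1 := tO1 aDk1 aObA

theorem bCf : S_Cf := tCf
theorem bGdc : S_Gdc := tGdc aSyG bCf
theorem bDom : S_Dom := tDom aSym bCf
theorem bCoe : S_Coe := tCoe aHom aUq aTai aLfx bCf
theorem bHg : S_Hg := tHg aLemE aObA bCf bGdc
theorem bHz : S_Hz := tHz aDet aO1 aObA bDom
theorem bHl : S_Hl := tHl aRulL bCf bGdc
theorem bHfin : S_Hfin := tHfin aFinT aBas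
theorem bHgr : S_Hgr := tHgr aNrm aTri
theorem bPv : S_Pv := tPv aFac aPsi0 aStr0 aStar aTin aUq aDk1 aObA bCf bGdc
theorem bCls : S_Cls := tCls aCom aRat bHgr bPv bCoe aTai aUq aDk1 bCf
theorem bChs : S_Chs := tChs aGam aTyU aDk1 aUq aBas
theorem bSpt : S_Spt := tSpt

/-- **The main inequality.** -/
theorem brg : S_Brg :=
  tAsm bCf bDom bHg bHz bHl bHfin bCls bChs bSpt aSy1 aBas aDk1

end Pool.Agent.MP72S
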