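import Pool.Agent.Lib.MP_72e2e6_nt.Sm.Br.Spec

/-!
# `Sm/Br/Chs`: the choices
-/

namespace Pool.Agent.MP72S

open Finset

theorem tChs : S_Gam → S_TyU → S_Dk1 → S_Uq → S_Bas → S_Chs := by
  intro hGam hTyU hDk1 hUq _ G N P ι _ _ _ _ _ _ D hAx b K hK s z₀ hz₀ hst h16 hPat f hf hfT
  obtain ⟨-, hDk, hO⟩ := hst
  obtain ⟨d1, d2, d3, d4, -⟩ := hDk1 (ι := ι) D hAx
  rw [← hDk] at hf h16
  have hf1 : f ∈ D.Dk z₀ 1 := d4 z₀ K hK hf
  have hf2 : 2 • f = 0 := ((d1 z₀ f).1 hf1).2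
  have hfb : 2 • f (Sum.inr b) = 0 := congrFun hf2 (Sum.inr b)
  have hcT : (fun _ => f (Sum.inr b) : D.J ι → N) ∈ D.T ι := ⟨_, hfb, rfl⟩
  set f₀ : D.J ι → N := f - (fun _ => f (Sum.inr b)) with hf₀
  have hiff : ∀ z : ι → P, D.Ok z → ∀ k, 1 ≤ k → (f ∈ D.Dk z k ↔ f₀ ∈ D.Dk z k) := by
    intro z hz k hk
    have hc := d2 z hz k hk hcT
    constructor
    · intro h
      exact (D.Dk z k).sub_mem h hc
    · intro h
      have := (D.Dk z k).add_mem h hc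
      rwa [hf₀, sub_add_cancel] at this
  have hfK : f₀ ∈ D.Dk z₀ K := (hiff z₀ hz₀ K hK).1 hf
  have hfL : f₀ ∈ D.Dk z₀ 1 := (hiff z₀ hz₀ 1 le_rfl).1 hf1
  have hf₀T : f₀ ∉ D.T ι := by
    intro h
    have := (D.T ι).add_mem h hcT
    rw [hf₀, sub_add_cancel] at this
    exact hfT this
  obtain ⟨γ, gadd, gT, gf, g0, gO⟩ := hGam D hAx z₀ hz₀ K hK h16 f₀ hfK hf₀T
  have hfZ : f₀ ∈ D.Z z₀ := ((d1 z₀ f₀).1 hfL).1
  have hf₀2 : 2 • f₀ = 0 := ((d1 z₀ f₀).1 hfL).2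
  have hne : f₀ ≠ 0 := fun h => hf₀T (h ▸ (D.T ι).zero_mem)
  obtain ⟨σ, hσ⟩ := (hTyU D hAx z₀ hz₀).2 f₀ hfZ hne
  have hσ2 : 2 • D.coc z₀ f₀ σ = 0 := by
    have := (hUq D hAx z₀).2.2.2.2 f₀ hfZ 1 (by rw [pow_one]; exact hf₀2) σ
    rwa [pow_one] at this
  obtain ⟨t', ht', het⟩ : ∃ t' : N, 2 • t' = 0 ∧ D.e (D.coc z₀ f₀ σ) t' = 1 := by
    by_contra hno
    push Not at hno
    refine hσ (hAx.e_nd _ hσ2 fun y hy => ?_)
    exact (zmod2 _).resolve_right (hno y hy)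
  set c : (D.J ι → N) → N := fun ν => if γ ν = 0 then 0 else t' with hc
  have hc2 : ∀ ν, 2 • c ν = 0 := by
    intro ν
    rw [hc]
    dsimp only
    split_ifs
    · exact smul_zero _
    · exact ht'
  have htt : t' + t' = 0 := by rw [← two_nsmul]; exact ht'
  obtain ⟨I, hI, hbI, hpat⟩ := hPat c (by
    intro ν hν ν' hν'
    rw [hc]
    dsimp only
    rw [gadd ν hν ν' hν']
    rcases zmod2 (γ ν) with h | h <;> rcases zmod2 (γ ν') with h' | h' <;> rw [h, h'] <;>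
      simp [htt]
    intro h2
    exact absurd h2 (by decide)) (fun ν hν => by rw [hc]; simp [gT ν hν]) (fun ν _ => hc2 ν)
  refine ⟨I, f₀, γ, t', ?_, ⟨σ, het⟩, hiff⟩
  have hfb0 : f₀ (Sum.inr b) = 0 := by rw [hf₀]; simp
  refine ⟨hI, hK, hbI, ht', fun ν hν => ((d1 z₀ ν).1 hν).2, d2 z₀ hz₀ 1 le_rfl, hfL, hfb0,
    fun i hi => ?_, gadd, gT, g0, ?_, fun ν hν => ⟨ν (Sum.inr b) + c ν, ?_, fun i hi =>
      hpat i hi ν hν⟩, fun ν hν hνI => ?_⟩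
  · rw [hpat i hi f₀ hfL, hfb0, hc]
    simp [gf]
  · rw [← hO]
    exact gO
  · rw [smul_add, hc2, add_zero]
    exact congrFun ((d1 z₀ ν).1 hν).2 (Sum.inr b)
  · obtain ⟨i, hi⟩ : I.Nonempty := by
      rw [← Finset.card_pos, hI]
      exact hK
    have h1 := hpat i hi ν hν
    rw [hνI i hi] at h1
    have h2 := hc2 ν
    rw [two_nsmul] at h2
    have h3 : ν (Sum.inr b) = c ν := by
      have h4 : ν (Sum.inr b) + c ν = c ν + c ν := by rw [← h1, h2]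
      exact add_right_cancel h4
    exact h3

end Pool.Agent.MP72S
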