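import Pool.Agent.Lib.MP_72e2e6_nt.Sm.Br.Spec

/-!
# MP_72e2e6_nt, `Sm/Br`: module `Pv` (the system of a pivot)
-/

namespace Pool.Agent.MP72S

open Finset
open Pool.Agent.Lib.MP_72e2e6_nt.Sm.Cnt (vtx Corner)

section

variable {G N P ι : Type} [Group G] [TopologicalSpace G] [AddCommGroup N]
    [DistribMulAction G N] [Fintype ι] [DecidableEq ι] {M : ℕ} {D : Dat G N P}
    {S : ι → Finset P} {g : Grd P ι M} {s : D.ST ι} {K : ℕ}

private theorem Pv_gp {f τ : D.J ι → N} {c : P}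
    {p : {i // i ∈ g.I} → Fin M} (h : D.Lp S g K s f τ c p) : D.Gp S g s c p :=
  ⟨h.1.1.1, h.1.1.2.1⟩

/-- There is an element of `Lam` which vanishes on `I` and has the value `t'` at `b`. -/
private theorem Pv_nu (hObA : S_ObA) (hax : Ax D) {Lam : AddSubgroup (D.J ι → N)}
    {f : D.J ι → N} {γ : (D.J ι → N) → ZMod 2} {t' : N} (hC : D.Cho g.I g.b K s Lam f γ t')
    {X : ι → P} (hok : D.Ok X) (hO : D.O X K = s.2.2) :
    ∃ ν ∈ Lam, (∀ i ∈ g.I, ν (Sum.inr i) = 0) ∧ ν (Sum.inr g.b) = t' := by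
  have h1 : ∃ ν₀ ∈ Lam, γ ν₀ ≠ 0 := by
    by_contra hcon
    push Not at hcon
    apply hC.gO
    rw [← hO]
    have hγ : ∀ ν, γ ν = 0 := by
      intro ν
      by_cases h : ν ∈ Lam
      · exact hcon ν h
      · exact hC.g0 ν h
    obtain ⟨h2, h3⟩ := (hObA D hax X hok).2.2.1 0 (zero_mem _)
    refine ⟨2 • 0, D.coc X 0, by simp, h2, fun ν hν => ?_, fun ν _ => hγ ν⟩
    rw [h3 ν hν, hγ ν]
  obtain ⟨ν₀, h0, h0'⟩ := h1
  have h0'' : γ ν₀ = 1 := by
    rcases zmod2 (γ ν₀) with h | h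
    · exact absurd h h0'
    · exact h
  obtain ⟨u, hu, hu'⟩ := hC.com ν₀ h0
  have hT : (fun _ => u : D.J ι → N) ∈ D.T ι := ⟨u, hu, rfl⟩
  have hν : ν₀ + (fun _ => u) ∈ Lam := add_mem h0 (hC.TL hT)
  have hz : ∀ i ∈ g.I, (ν₀ + fun _ => u : D.J ι → N) (Sum.inr i) = 0 := by
    intro i hi
    rw [Pi.add_apply, hu' i hi, ← two_nsmul, hu]
  refine ⟨_, hν, hz, ?_⟩
  rw [hC.pat _ hν hz, if_neg]
  rw [hC.add _ h0 _ (hC.TL hT), h0'', hC.gT _ hT, add_zero]
  exact one_ne_zero

end

theorem tPv : S_Fac → S_Psi0 → S_Str0 → S_Star → S_Tin → S_Uq → S_Dk1 → S_ObA → S_Cf → S_Gdc →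
    S_Pv := by
  intro hFac hPsi hStr hStar hTin _ _ hObA hCf hGdc G N P ι _ _ _ _ _ _ _ M D hax _ S g s hG K
    Lam f γ t' hC hD1 τ hτ c₀ x p hxp hL A hSA hA
  classical
  obtain ⟨hPA, hPB, hPC⟩ := hPsi
  have htop : vtx x p (fun _ => true) = p := by
    funext i
    simp [vtx]
  have hbot : vtx x p (fun _ => false) = x := by
    funext i
    simp [vtx]
  have hb : g.b ∉ g.I := hC.hb
  have hK := hC.hK
  have hcI : #g.I = K := hC.cK
  have hIne : g.I.Nonempty := by
    rw [← card_pos, hcI]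
    omega
  have hf2 : 2 • f = 0 := hC.lam2 f hC.fL
  have hτK : 2 ^ K • τ = 0 := by
    have : 2 ^ K = 2 * 2 ^ (K - 1) := by
      rw [← pow_succ', Nat.sub_add_cancel hK]
    rw [this, mul_smul, hτ, hf2]
  have hτi : ∀ j, 2 ^ (K - 1) • τ j = f j := by
    intro j
    rw [← hτ, Pi.smul_apply]
  -- the vertices
  have hXb : ∀ (c : P) (q : {i // i ∈ g.I} → Fin M), g.cf c q g.b = c := fun c q =>
    (hCf g hb c c x q).2.1
  have hcfI : ∀ (c c' : P) (q : {i // i ∈ g.I} → Fin M), ∀ i ∈ g.I, g.cf c q i = g.cf c' q i := by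
    intro c c' q i hi
    rw [(hCf g hb c c x q).2.2.1 i hi, (hCf g hb c' c x q).2.2.1 i hi]
  have hcfn : ∀ (c c' : P) (q : {i // i ∈ g.I} → Fin M), ∀ i, i ≠ g.b →
      g.cf c q i = g.cf c' q i := by
    intro c c' q i hi
    by_cases hiI : i ∈ g.I
    · exact hcfI c c' q i hiI
    · rw [(hCf g hb c c x q).2.2.2.1 i hiI hi, (hCf g hb c' c x q).2.2.2.1 i hiI hi]
  have hmx0 : ∀ w : Finset ι, mx (g.cf c₀ p) (g.cf c₀ x) w =
      g.cf c₀ (vtx x p fun i => decide (i.1 ∉ w)) := by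
    intro w
    rw [(hCf g hb c₀ c₀ x p).1 w, ite_self]
  have hLX : D.Lp S g K s f τ c₀ p := by
    have := hL (fun _ => true)
    rwa [htop] at this
  have hLY : D.Lp S g K s f τ c₀ x := by
    have := hL (fun _ => false)
    rwa [hbot] at this
  have hGd : D.Gd (g.cf c₀ p) (g.cf c₀ x) g.I :=
    (hGdc D S g s hG c₀ c₀ x p hxp).1 fun w => Pv_gp (hL w)
  have hokX : D.Ok (g.cf c₀ p) := hG.ok _ hLX.1.1.1
  -- the halves
  let t₀ : (ι → P) → D.J ι → N := fun z =>
    if h : ∃ t ∈ D.Z z, 2 • t = τ then h.choose else 0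
  have ht₀ : ∀ z : ι → P, (∃ t ∈ D.Z z, 2 • t = τ) → t₀ z ∈ D.Z z ∧ 2 • t₀ z = τ := by
    intro z h
    have : t₀ z = h.choose := dif_pos h
    rw [this]
    exact h.choose_spec
  obtain ⟨s', hs', hs1⟩ := (hStr D hax (g.cf c₀ p) (g.cf c₀ x) g.I g.b hGd hb hIne τ t₀ (by
    intro w _
    apply ht₀
    rw [hmx0 w]
    exact (hL _).2)).2
  let t : (ι → P) → D.J ι → N := fun z =>
    if z = g.cf c₀ p then t₀ (g.cf c₀ p) + (fun _ => s') else t₀ z
  have htX : t (g.cf c₀ p) = t₀ (g.cf c₀ p) + (fun _ => s') := if_pos rfl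
  have ht : ∀ z : ι → P, (∃ t ∈ D.Z z, 2 • t = τ) → t z ∈ D.Z z ∧ 2 • t z = τ := by
    intro z h
    by_cases hz : z = g.cf c₀ p
    · subst hz
      obtain ⟨h1, h2⟩ := ht₀ _ h
      rw [htX]
      obtain ⟨R, hR⟩ := hax.dvs s'
      refine ⟨add_mem h1 ⟨_, hTin D hax (g.cf c₀ p) hokX s' R hR⟩, ?_⟩
      rw [smul_add, h2]
      have : (2 • fun _ => s' : D.J ι → N) = 0 := by
        funext j
        rw [Pi.smul_apply, hs', Pi.zero_apply]
      rw [this, add_zero]
    · have : t z = t₀ z := if_neg hz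
      rw [this]
      exact ht₀ z h
  have htw : ∀ w ⊆ g.I, t (mx (g.cf c₀ p) (g.cf c₀ x) w) ∈
      D.Z (mx (g.cf c₀ p) (g.cf c₀ x) w) ∧ 2 • t (mx (g.cf c₀ p) (g.cf c₀ x) w) = τ := by
    intro w _
    apply ht
    rw [hmx0 w]
    exact (hL _).2
  have hnorm : alt (g.cf c₀ p) (g.cf c₀ x) g.I
      (fun z => D.coc z (t z) (D.tau (g.cf c₀ p g.b))) = 0 := by
    apply hs1 t htX
    intro w hw hne
    have : mx (g.cf c₀ p) (g.cf c₀ x) w ≠ g.cf c₀ p := by
      intro heq
      obtain ⟨i, hi⟩ := hne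
      have h1 := congrFun heq i
      rw [mx, if_pos hi] at h1
      exact hGd.ne i (hw hi) h1.symm
    exact if_neg this
  have hτZ : ∀ z : ι → P, (∃ t ∈ D.Z z, 2 • t = τ) → τ ∈ D.Z z := by
    rintro z ⟨t, h1, h2⟩
    rw [← h2]
    exact nsmul_mem h1 2
  have hτw : ∀ w ⊆ g.I, τ ∈ D.Z (mx (g.cf c₀ p) (g.cf c₀ x) w) := by
    intro w _
    apply hτZ
    rw [hmx0 w]
    exact (hL _).2
  have hBall : ∀ F' ⊆ g.I, F' ≠ g.I →
      D.fc (g.cf c₀ p) (g.cf c₀ x) g.I τ t F' (D.phi (g.cf c₀ p g.b)) = 0 ∧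
      D.fc (g.cf c₀ p) (g.cf c₀ x) g.I τ t F' (D.tau (g.cf c₀ p g.b)) = 0 := by
    intro F' h1 h2
    refine hPB D hax (g.cf c₀ p) (g.cf c₀ x) g.I g.b hGd hb hIne τ (by rw [hcI]; exact hτK) ?_
      hτw t F' h1 h2
    rw [hcI, hτi]
    exact hC.fb
  have hfcI : ∀ σ, D.fc (g.cf c₀ p) (g.cf c₀ x) g.I τ t g.I σ =
      alt (g.cf c₀ p) (g.cf c₀ x) g.I fun z => D.coc z (t z) σ := by
    intro σ
    rw [Dat.fc, if_pos rfl]
  obtain ⟨hSys, hLc, hE⟩ := hFac D hax (g.cf c₀ p) (g.cf c₀ x) g.I hGd hIne τ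
    (by rw [hcI]; exact hτK) (by
      intro i hi
      rw [hcI, hτi]
      exact hC.fI i hi) t htw
  have he0 : D.e 0 t' = 0 := by
    have h := hax.e_add 0 0 t' (smul_zero _) (smul_zero _) hC.two
    rw [add_zero] at h
    exact left_eq_add.1 h
  refine ⟨fun U => if U ⊆ g.I then D.fc (g.cf c₀ p) (g.cf c₀ x) g.I τ t U else 0, ?_, ?_, ?_, ?_,
    ?_⟩
  · refine ⟨fun U hU σ => ?_, fun i hi σ τ' => ?_, fun U hU σ τ' => ?_⟩
    · simp only [if_pos hU]
      exact hSys.two U hU σ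
    · simp only [if_pos hi]
      exact hSys.hom i hi σ τ'
    · simp only [if_pos hU]
      rw [hSys.mul U hU σ τ']
      congr 1
      have hfil : (U.filter fun i => D.ch (g.cf c₀ p i) σ + D.ch (g.cf c₀ x i) σ = 1) =
          U.filter fun i => (if i ∈ g.I then D.ch (g.cf c₀ p i) σ + D.ch (g.cf c₀ x i) σ
            else 0) = 1 := by
        apply filter_congr
        intro i hi
        rw [if_pos (hU hi)]
      rw [hfil]
      apply sum_congr rfl
      intro W _
      rw [if_pos (sdiff_subset.trans hU)]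
  · intro U hU
    simp only [if_pos hU]
    refine ⟨hLc U hU, fun v hv => ?_⟩
    by_cases hvc : v = g.cf c₀ p g.b
    · by_cases hUI : U = g.I
      · rw [hUI, hfcI, hvc]
        exact hnorm
      · rw [hvc]
        exact (hBall U hU hUI).2
    · refine hPC D hax (g.cf c₀ p) (g.cf c₀ x) g.I hGd τ t
        (fun w hw => ⟨hτw w hw, (htw w hw).1⟩) U hU v (fun h => hv (hSA h)) ?_ ?_
      · intro i hi
        by_cases hib : i = g.b
        · rw [hib] at hi
          exact hvc hi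
        · apply hv
          rw [hi]
          exact hA i hib (hLX.1.1.1.1 i)
      · intro i hi hi'
        apply hv
        rw [hi']
        exact hA i (fun h => hb (h ▸ hi)) (hLY.1.1.1.1 i)
  · intro U hU
    simp only [if_neg hU]
  · intro σ
    simp only [if_pos (empty_subset _)]
    rw [hE σ, hcI, hτ]
  · intro c hc
    have hcX : D.Lp S g K s f τ c p := by
      have := hc (fun _ => true)
      rwa [htop] at this
    have hcY : D.Lp S g K s f τ c x := by
      have := hc (fun _ => false)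
      rwa [hbot] at this
    have hch : ∀ i ∈ g.I, D.ch (g.cf c₀ p i) (D.phi c) + D.ch (g.cf c₀ x i) (D.phi c) = 0 := by
      intro i hi
      have hib : i ≠ g.b := fun h => hb (h ▸ hi)
      have h1 : D.Sy (g.cf c p) = D.Sy (g.cf c x) := by
        rw [hcX.1.1.2.1, hcY.1.1.2.1]
      have h2 := congrFun (congrFun (congrArg Prod.fst h1) i) g.b
      simp only [Dat.Sy, if_neg hib] at h2
      rw [hXb, hXb] at h2
      rw [hcfI c₀ c p i hi, hcfI c₀ c x i hi, h2]
      exact CharTwo.add_self_eq_zero _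
    by_cases hcc : c₀ = c
    · subst hcc
      refine ⟨⟨fun i hi => ?_, fun U hU hUI => ?_⟩, ?_⟩
      · simp only [if_pos hi]
        exact hch i hi
      · simp only [if_pos hU]
        have := (hBall U hU hUI).1
        rwa [hXb] at this
      · simp only [if_pos (Subset.refl g.I)]
        rw [hfcI]
        have h1 := (hStr D hax (g.cf c₀ p) (g.cf c₀ x) g.I g.b hGd hb hIne τ t htw).1 hnorm
        rw [hXb] at h1
        rw [h1]
        exact he0
    · have hGd' : D.Gd (g.cf c p) (g.cf c₀ x) (insert g.b g.I) :=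
        (hGdc D S g s hG c₀ c x p hxp).2 hcc (fun w => Pv_gp (hL w)) (fun w => Pv_gp (hc w))
      have hcard : #(insert g.b g.I) = K + 1 := by
        rw [card_insert_of_notMem hb, hcI]
      have hupd : Function.update (g.cf c p) g.b (g.cf c₀ x g.b) = g.cf c₀ p := by
        funext j
        by_cases hj : j = g.b
        · rw [hj, Function.update_self, hXb, hXb]
        · rw [Function.update_of_ne hj]
          exact hcfn c c₀ p j hj
      have hmx : ∀ w : Finset ι, mx (g.cf c p) (g.cf c₀ x) w =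
          g.cf (if g.b ∈ w then c₀ else c) (vtx x p fun i => decide (i.1 ∉ w)) :=
        (hCf g hb c₀ c x p).1
      have hLw : ∀ w : Finset ι, D.Lp S g K s f τ (if g.b ∈ w then c₀ else c)
          (vtx x p fun i => decide (i.1 ∉ w)) := by
        intro w
        by_cases hbw : g.b ∈ w
        · rw [if_pos hbw]
          exact hL _
        · rw [if_neg hbw]
          exact hc _
      have hhalf : ∀ w : Finset ι, ∃ t ∈ D.Z (mx (g.cf c p) (g.cf c₀ x) w), 2 • t = τ := by
        intro w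
        rw [hmx w]
        exact (hLw w).2
      have h2c : 2 ≤ #(insert g.b g.I) := by
        rw [hcard]
        omega
      have hτ1 : 2 ^ (#(insert g.b g.I) - 1) • τ = 0 := by
        rw [hcard]
        exact hτK
      have hτ2 : ∀ i ∈ insert g.b g.I, 2 ^ (#(insert g.b g.I) - 2) • τ (Sum.inr i) = 0 := by
        intro i hi
        rw [hcard, show K + 1 - 2 = K - 1 by omega, hτi]
        rcases mem_insert.1 hi with h | h
        · rw [h]
          exact hC.fb
        · exact hC.fI i h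
      refine ⟨⟨fun i hi => ?_, fun U hU hUI => ?_⟩, ?_⟩
      · simp only [if_pos hi]
        exact hch i hi
      · simp only [if_pos hU]
        have h1 := hPA D hax (g.cf c p) (g.cf c₀ x) (insert g.b g.I) g.b hGd'
          (mem_insert_self _ _) h2c τ hτ1 hτ2 (fun w _ => hτZ _ (hhalf w)) t U
          (by rwa [erase_insert hb]) (by rwa [erase_insert hb])
        rw [erase_insert hb, hupd, hXb] at h1
        exact h1
      · simp only [if_pos (Subset.refl g.I)]
        rw [hfcI]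
        obtain ⟨ν, hν, hν0, hνb⟩ := Pv_nu hObA hax hC hokX hLX.1.1.2.2.2
        have h1 := hStar D hax (g.cf c p) (g.cf c₀ x) (insert g.b g.I) g.b hGd'
          (mem_insert_self _ _) h2c τ hτ1 hτ2 t (fun w _ => ht _ (hhalf w)) (by
            rw [erase_insert hb, hupd, hXb]
            rw [hXb] at hnorm
            exact hnorm) ν (by
            intro w _
            rw [hmx w, hD1 _ _ (Pv_gp (hLw w))]
            exact hν) (by
            intro i hi
            rw [erase_insert hb] at hi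
            exact hν0 i hi)
        rw [erase_insert hb, hupd, hXb, hνb] at h1
        exact h1

end Pool.Agent.MP72S
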