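import Pool.Agent.Lib.MP_72e2e6_nt.Sm.H.Spec
import Pool.Agent.Lib.MP_72e2e6_nt.Sm.Cnt.Final

/-!
# MP_72e2e6_nt, `Sm/Br`: the bridge from block A to the counting theorem (target `S_Brg`)

The grid: `I` is the set of the indices which vary (`#I = K`), `e (i, ·)` the list of `M` primes for
the index `i ∈ I`, `R` the other primes, `b` the index of the last prime `c`; `cf c p` is the
configuration with the primes `e (i, p i)` (`i ∈ I`), `c` (at `b`) and `R j`. The cube with the top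
vertex `p` and the lower corner `x` in the box is the cube `mx (cf c p) (cf c x) w`, `w ⊆ I`, based
at the TOP vertex (module `Cf`).
-/

namespace Pool.Agent.MP72S

open Finset
open Pool.Agent.Lib.MP_72e2e6_nt.Sm.Cnt (vtx Corner CodingData main_ineq)

/-- A grid. -/
structure Grd (P ι : Type) (M : ℕ) where
  /-- the index of the last prime -/
  b : ι
  /-- the indices which vary -/
  I : Finset ι
  /-- the lists of primes -/
  e : {i // i ∈ I} × Fin M → P
  /-- the other primes -/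
  R : ι → P

/-- The configurations of a grid. -/
def Grd.cf {P ι : Type} [DecidableEq ι] {M : ℕ} (g : Grd P ι M) (c : P)
    (p : {i // i ∈ g.I} → Fin M) : ι → P := fun j =>
  if h : j ∈ g.I then g.e (⟨j, h⟩, p ⟨j, h⟩) else if j = g.b then c else g.R j

section

variable {G N P : Type} [Group G] [TopologicalSpace G] [AddCommGroup N] [DistribMulAction G N]
  (D : Dat G N P) {ι : Type} [Fintype ι] [DecidableEq ι] {M : ℕ}

/-- The type of the states. -/
abbrev Dat.ST (ι : Type) : Type :=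
  ((ι → ι → ZMod 2) × (ι → {v // v ∈ D.S} → ZMod 2 × ZMod 2 × ZMod 2) ×
      (ι → ZMod 2 × ZMod 2) × (ι → {u : N // 4 • u = 0} → N)) × AddSubgroup (D.J ι → N) ×
        Set ((D.J ι → N) → ZMod 2)

/-- Admissible grids; `S` are the sets of primes. -/
structure Dat.Gok (S : ι → Finset P) (g : Grd P ι M) : Prop where
  hb : g.b ∉ g.I
  inj : Function.Injective g.e
  mem : ∀ k, g.e k ∈ S k.1.1
  avd : ∀ k j, j ∉ g.I → j ≠ g.b → g.e k ≠ g.R j
  nS : ∀ i, i ≠ g.b → ∀ v ∈ S i, v ∉ D.S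
  ok : ∀ z ∈ tup S, D.Ok z

/-- Good points: the configuration is an injective tuple and has the right symbols. -/
def Dat.Gp (S : ι → Finset P) (g : Grd P ι M) (s : D.ST ι) (c : P)
    (p : {i // i ∈ g.I} → Fin M) : Prop :=
  g.cf c p ∈ tup S ∧ D.Sy (g.cf c p) = s.1

open Classical in
/-- The code of the last prime: the symbols of the `e k` at `c`, the coincidence `c = e k`, and
whether there is a good point at all. -/
noncomputable def Dat.cod (S : ι → Finset P) (g : Grd P ι M) (s : D.ST ι) (c : P) :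
    ({i // i ∈ g.I} × Fin M → ZMod 2) × Option ({i // i ∈ g.I} × Fin M) × Bool :=
  (fun k => D.ch (g.e k) (D.phi c), if h : ∃ k, g.e k = c then some h.choose else none,
    decide (∃ p, D.Gp S g s c p))

/-- The choices: `Lam` = the `2`-Selmer types of the state, `f` the element which should lift, `γ`
a functional outside `O`, `t' ∈ V`; the patterns of the indices in `I`. -/
structure Dat.Cho (I : Finset ι) (b : ι) (K : ℕ) (s : D.ST ι) (Lam : AddSubgroup (D.J ι → N))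
    (f : D.J ι → N) (γ : (D.J ι → N) → ZMod 2) (t' : N) : Prop where
  cK : #I = K
  hK : 1 ≤ K
  hb : b ∉ I
  two : 2 • t' = 0
  lam2 : ∀ ν ∈ Lam, 2 • ν = 0
  TL : D.T ι ≤ Lam
  fL : f ∈ Lam
  fb : f (Sum.inr b) = 0
  fI : ∀ i ∈ I, f (Sum.inr i) = 0
  add : ∀ ν ∈ Lam, ∀ ν' ∈ Lam, γ (ν + ν') = γ ν + γ ν'
  gT : ∀ ν ∈ D.T ι, γ ν = 0
  g0 : ∀ ν, ν ∉ Lam → γ ν = 0
  gO : γ ∉ s.2.2
  com : ∀ ν ∈ Lam, ∃ u : N, 2 • u = 0 ∧ ∀ i ∈ I, ν (Sum.inr i) = u
  pat : ∀ ν ∈ Lam, (∀ i ∈ I, ν (Sum.inr i) = 0) → ν (Sum.inr b) = if γ ν = 0 then 0 else t'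

open Classical in
/-- The partial functions (obstruction functionals of level `K - 1`). -/
noncomputable def Dat.gfn (S : ι → Finset P) (g : Grd P ι M) (s : D.ST ι)
    (Lam : AddSubgroup (D.J ι → N)) (ξ : D.J ι → N) (c : P) (p : {i // i ∈ g.I} → Fin M) :
    Option ({ν : D.J ι → N // 2 • ν = 0} → ZMod 2) :=
  if h : D.Gp S g s c p ∧ ∃ η, D.IsH (g.cf c p) ξ η then
    some fun ν => if ν.1 ∈ Lam ∧ ∀ i ∈ g.I, ν.1 (Sum.inr i) = 0 then
      D.ob (g.cf c p) ξ h.2.choose ν.1 else 0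
  else none

/-- The points where the state is right. -/
def Dat.Zp (S : ι → Finset P) (g : Grd P ι M) (K : ℕ) (s : D.ST ι) (c : P)
    (p : {i // i ∈ g.I} → Fin M) : Prop :=
  g.cf c p ∈ tup S ∧ D.IsSt K (g.cf c p) s

/-- The points where moreover `f` lifts. -/
def Dat.Yp (S : ι → Finset P) (g : Grd P ι M) (K : ℕ) (s : D.ST ι) (f : D.J ι → N) (c : P)
    (p : {i // i ∈ g.I} → Fin M) : Prop :=
  D.Zp S g K s c p ∧ f ∈ D.Dk (g.cf c p) (K + 1)

/-- The points where moreover `τ` has a half. -/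
def Dat.Lp (S : ι → Finset P) (g : Grd P ι M) (K : ℕ) (s : D.ST ι) (f τ : D.J ι → N) (c : P)
    (p : {i // i ∈ g.I} → Fin M) : Prop :=
  D.Yp S g K s f c p ∧ ∃ t ∈ D.Z (g.cf c p), 2 • t = τ

end

/-- Module `Cf`. Cubes of the box. PROOF. Case distinction (`b ∉ I`; at the indices outside
`I ∪ {b}` both configurations are `R j`). -/
def S_Cf : Prop :=
  ∀ {P ι : Type} [DecidableEq ι] {M : ℕ} (g : Grd P ι M), g.b ∉ g.I →
    ∀ (c c' : P) (x p : {i // i ∈ g.I} → Fin M),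
    (∀ w : Finset ι, mx (g.cf c' p) (g.cf c x) w =
      g.cf (if g.b ∈ w then c else c') (vtx x p fun i => decide (i.1 ∉ w))) ∧
    g.cf c p g.b = c ∧ (∀ i (hi : i ∈ g.I), g.cf c p i = g.e (⟨i, hi⟩, p ⟨i, hi⟩)) ∧
    (∀ j, j ∉ g.I → j ≠ g.b → g.cf c p j = g.R j) ∧
    (∀ w : {i // i ∈ g.I} → Bool, ∃ w' ⊆ g.I, (w = (fun i => decide (i.1 ∉ w'))) ∧
      (w' = ∅ ↔ w = fun _ => true))

/-- Module `Gdc` (cubes of good points are good). PROOF. `S_SyG`: the vertices are good points, so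
they are `Ok` (`Gok.ok`) and have the symbols `s.1`; the coordinates are different: `e` is injective,
`x i < p i`; for `b` by hypothesis. -/
def S_Gdc : Prop :=
  ∀ {G N P ι : Type} [Group G] [TopologicalSpace G] [AddCommGroup N] [DistribMulAction G N]
    [Fintype ι] [DecidableEq ι] {M : ℕ} (D : Dat G N P) (S : ι → Finset P) (g : Grd P ι M)
    (s : D.ST ι), D.Gok S g → ∀ (c c' : P) (x p : {i // i ∈ g.I} → Fin M), (∀ i, x i < p i) →
    ((∀ w, D.Gp S g s c (vtx x p w)) → D.Gd (g.cf c p) (g.cf c x) g.I) ∧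
    (c ≠ c' → (∀ w, D.Gp S g s c (vtx x p w)) → (∀ w, D.Gp S g s c' (vtx x p w)) →
      D.Gd (g.cf c' p) (g.cf c x) (insert g.b g.I))

/-- Module `Dom` (good points depend only on the code). PROOF. Let `Gp c p`. The third component of
the code gives `p'` with `Gp c' p'`. `cf c' p` is in `tup S`: `c' ∈ S b` and `c' ≠ R j` by `p'`; if
`c' = e (i, p i)` then the second component of the code of `c'` is `some (i, p i)` (`e` is
injective), so `c = e (i, p i)`, which contradicts the injectivity of `cf c p`. Symbols: for the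
indices `i ≠ b` we have `cf c' p i = cf c p i`, and `cf c' p b = c' = cf c' p' b`; so the components
2, 3, 4 agree with `s.1`. First component at `(i, j)`: `i, j ≠ b`: as for `cf c p`. `(i, b)`, `i ∉ I`:
as for `cf c' p'`; `i ∈ I`: the first component of the code. `(b, j)`, `j ∉ I`: as for `cf c' p'`;
`j ∈ I`: `Sym` (`ch c' (φ e) = ch e (φ c')`, and the same for `c`; all places are different from
infinity since they are not in `D.S`: `Ok.nS`). -/
def S_Dom : Prop :=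
  ∀ {G N P ι : Type} [Group G] [TopologicalSpace G] [AddCommGroup N] [DistribMulAction G N]
    [Fintype ι] [DecidableEq ι] {M : ℕ} (D : Dat G N P), Ax D → ∀ (S : ι → Finset P)
    (g : Grd P ι M) (s : D.ST ι), D.Gok S g → ∀ c c' : P, D.cod S g s c = D.cod S g s c' →
    ∀ p, D.Gp S g s c p → D.Gp S g s c' p

/-- Module `Coe` (the cocycle of a type which vanishes at the indices in `I` and `b` is the same for
all good points). PROOF. Both cocycles are homomorphisms to `V` (`Uq` (5) with `k = 1`, `tw_two`).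
`Hom` (1) for the difference (sum): `v ∈ D.S`: equal values at `τ_v`, `φ_v` by `Lfx` (`lo`, the
same type; the characters `chi` agree at `τ_s`, `φ_s` by the second component of the symbols). If `v`
is a place of `cf c p` outside `D.S`, `v = cf c p i`: the value at `τ_v` is `-ν (inr i)` (`Tai`),
which is zero for `i ∈ I` and `i = b`. Let `v = R j`, `j ∉ I`, `j ≠ b`: it is the place with index
`j` for both configurations, equal values. All other values are zero: `ur` (a place `e k`, `c`, `c'`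
which is a place of the other configuration with an index `j ∉ I ∪ {b}`, i.e. `= R j`, is
impossible: `avd`; for `c' = R j` note that `cf c' p'` is injective). -/
def S_Coe : Prop :=
  ∀ {G N P ι : Type} [Group G] [TopologicalSpace G] [AddCommGroup N] [DistribMulAction G N]
    [Fintype ι] [DecidableEq ι] {M : ℕ} (D : Dat G N P), Ax D → ∀ (S : ι → Finset P)
    (g : Grd P ι M) (s : D.ST ι), D.Gok S g → ∀ (c c' : P) (p p' : {i // i ∈ g.I} → Fin M),
    D.Gp S g s c p → D.Gp S g s c' p' → ∀ ν : D.J ι → N, 2 • ν = 0 → ν ∈ D.Z (g.cf c p) →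
    ν ∈ D.Z (g.cf c' p') → ν (Sum.inr g.b) = 0 → (∀ i ∈ g.I, ν (Sum.inr i) = 0) →
    ∀ σ, D.coc (g.cf c p) ν σ = D.coc (g.cf c' p') ν σ

/-- Module `Hg` (the completion rule for the obstruction functionals). PROOF. All vertices are good
for `c` (`c'`), so by `Gdc` the cube `X = cf c p`, `Y = cf c x`, `U = I` is good, `mx X Y w = cf c (vtx
x p ..)` (`Cf`). `LemE` (`#I = K ≥ 2`) with the halves at the vertices `w ≠ ∅`: there is a half `η'`
at `p` with `ob X ξ η' ν = ∑_{w ≠ ∅} ob (mx X Y w) ξ (η ..) ν` for `ν ∈ Lam = Dk (mx X Y w) 1` (all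
`w`), `ν = 0` on `I`. So `gfn ξ c p = some h`, `h ν = ∑_{w ≠ ∅} (gfn ξ c (vertex w)) ν` (`ObA` (5): the
functional does not depend on the half). The same for `c'`, with the same summands. -/
def S_Hg : Prop :=
  ∀ {G N P ι : Type} [Group G] [TopologicalSpace G] [AddCommGroup N] [DistribMulAction G N]
    [Fintype ι] [DecidableEq ι] {M : ℕ} (D : Dat G N P), Ax D → ∀ (S : ι → Finset P)
    (g : Grd P ι M) (s : D.ST ι), D.Gok S g → ∀ (Lam : AddSubgroup (D.J ι → N)),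
    (∀ c p, D.Gp S g s c p → D.Dk (g.cf c p) 1 = Lam) → ∀ ξ : D.J ι → N, 2 ≤ #g.I →
    2 ^ (#g.I - 1) • ξ = 0 → (∀ i ∈ g.I, 2 ^ (#g.I - 2) • ξ (Sum.inr i) = 0) →
    ∀ (c c' : P) (x p : {i // i ∈ g.I} → Fin M), (∀ i, x i < p i) →
    (∀ w, D.Gp S g s c (vtx x p w)) → (∀ w, D.Gp S g s c' (vtx x p w)) →
    (∀ w, w ≠ (fun _ => true) → D.gfn S g s Lam ξ c (vtx x p w) ≠ none ∧
      D.gfn S g s Lam ξ c (vtx x p w) = D.gfn S g s Lam ξ c' (vtx x p w)) →
    D.gfn S g s Lam ξ c p = D.gfn S g s Lam ξ c' p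

/-- Module `Hz` (the state is determined by the code and the obstruction functionals). PROOF. Let
`Zp c p`. `Gp c p`, so `Gp c' p`. `x = cf c p`, `x' = cf c' p`. `K = 1`: `Dk x 1 = Dk x' 1 = Lam`, `O = {0}`
(`O1`). `K ≥ 2`: `Det`; `I` is not empty, `Cho.com`; for `ξ` as in `Det` the equality
`gfn ξ c p = gfn ξ c' p` gives the equivalence of the existence of halves and the equality of the
functionals on the `ν ∈ Lam`, `ν = 0` on `I` (`ObA` (5)). -/
def S_Hz : Prop :=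
  ∀ {G N P ι : Type} [Group G] [TopologicalSpace G] [IsTopologicalGroup G] [AddCommGroup N]
    [DistribMulAction G N] [Fintype ι] [DecidableEq ι] {M : ℕ} (D : Dat G N P), Ax D → Ax2 D →
    ∀ (S : ι → Finset P) (g : Grd P ι M) (s : D.ST ι), D.Gok S g → ∀ (K : ℕ)
    (Lam : AddSubgroup (D.J ι → N)) (f : D.J ι → N) (γ : (D.J ι → N) → ZMod 2) (t' : N),
    D.Cho g.I g.b K s Lam f γ t' → (∀ c p, D.Gp S g s c p → D.Dk (g.cf c p) 1 = Lam) →
    ∀ (c c' : P), D.cod S g s c = D.cod S g s c' →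
    (∀ ξ, 2 ≤ K → 2 ^ (K - 1) • ξ = 0 → (∀ i ∈ g.I, 2 ^ (K - 2) • ξ (Sum.inr i) = 0) →
      D.gfn S g s Lam ξ c = D.gfn S g s Lam ξ c') → ∀ p, D.Zp S g K s c p → D.Zp S g K s c' p

/-- Module `Hl` (the completion rule for the sets `L`). PROOF. If `c = c'` clear. Let `c ≠ c'`. All
vertices of the cube in the box are in `Y` for `c` and `c'`, so good. `RulL` with `x = cf c' p`,
`y = cf c x`, `U = insert b I` (`Gdc`), `#U = K + 1`: the vertices are `cf c (vtx ..)` (`b ∈ w`) and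
`cf c' (vtx ..)` (`b ∉ w`) by `Cf`. `t z` := a half of `τ` in `Z z` if there is one (exists for
`w ≠ ∅`: for `b ∈ w` by `p ∈ L` for `c` and the hypothesis for the other vertices, for `b ∉ w` by
hypothesis). `2^K τ = 2 f = 0`, `2^(K-1) τ = f`. `γ ∉ O x K = s.2.2`. -/
def S_Hl : Prop :=
  ∀ {G N P ι : Type} [Group G] [TopologicalSpace G] [IsTopologicalGroup G] [AddCommGroup N]
    [DistribMulAction G N] [Fintype ι] [DecidableEq ι] {M : ℕ} (D : Dat G N P), Ax D → Ax2 D →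
    ∀ (S : ι → Finset P) (g : Grd P ι M) (s : D.ST ι), D.Gok S g → ∀ (K : ℕ)
    (Lam : AddSubgroup (D.J ι → N)) (f : D.J ι → N) (γ : (D.J ι → N) → ZMod 2) (t' : N),
    D.Cho g.I g.b K s Lam f γ t' → (∀ c p, D.Gp S g s c p → D.Dk (g.cf c p) 1 = Lam) →
    ∀ τ : D.J ι → N, 2 ^ (K - 1) • τ = f → ∀ (c c' : P) (x p : {i // i ∈ g.I} → Fin M),
    (∀ i, x i < p i) → (∀ w, D.Yp S g K s f c (vtx x p w)) →
    (∀ w, D.Yp S g K s f c' (vtx x p w)) →
    (∀ w, w ≠ (fun _ => true) → D.Lp S g K s f τ c (vtx x p w) ∧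
      D.Lp S g K s f τ c' (vtx x p w)) → D.Lp S g K s f τ c p → D.Lp S g K s f τ c' p

/-- The data of a pivot: a system of functions with its characters. -/
def Dat.UU {G N P ι : Type} [Group G] [TopologicalSpace G] [AddCommGroup N] [DistribMulAction G N]
    [DecidableEq ι] (D : Dat G N P) (I : Finset ι) (A : Finset P) :
    Set ((ι → G → ZMod 2) × (Finset ι → G → N)) :=
  {q | (∃ u v : ι → P, (∀ i, u i ∈ A) ∧ (∀ i, v i ∈ A) ∧
      q.1 = fun i σ => if i ∈ I then D.ch (u i) σ + D.ch (v i) σ else 0) ∧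
    Sys I q.1 q.2 ∧ (∀ U ⊆ I, IsLocallyConstant (q.2 U) ∧ ∀ v, v ∉ A → q.2 U (D.tau v) = 0) ∧
    ∀ U, ¬ U ⊆ I → q.2 U = 0}

/-- The subgroups of Stepanov's theorem, as sets. -/
def Dat.HS {G N P ι : Type} [Group G] [TopologicalSpace G] [AddCommGroup N] [DistribMulAction G N]
    [DecidableEq ι] (D : Dat G N P) (I : Finset ι) (t' : N)
    (Q : Set (G → ZMod 2)) (W : Set ((ι → G → ZMod 2) × (Finset ι → G → N))) : Set G :=
  {h | (∀ q ∈ Q, q h = 0) ∧ ∀ q ∈ W, h ∈ sysK I q.1 q.2 ∧ D.e (q.2 I h) t' = 0}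

/-- The finite set of subgroups. -/
def Dat.HH {G N P : Type} [Group G] [TopologicalSpace G] [AddCommGroup N] [DistribMulAction G N]
    (D : Dat G N P) (ι : Type) [Fintype ι] [DecidableEq ι] (A : Finset P) : Set (Subgroup G) :=
  {H | H.Normal ∧ IsOpen (H : Set G) ∧ ∃ (I : Finset ι) (t' : N) (Q : Set (G → ZMod 2))
    (W : Set ((ι → G → ZMod 2) × (Finset ι → G → N))), 2 • t' = 0 ∧
    Q ⊆ {q | ∃ u ∈ A, ∃ v ∈ A, q = fun σ => D.ch u σ + D.ch v σ} ∧ W ⊆ D.UU I A ∧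
    (H : Set G) = D.HS I t' Q W}

/-- Module `Hfin`. PROOF. `UU I A` is finite: finitely many first components (`ι` and `A` are
finite), and for each of them finitely many second components by `FinT` (with `c = q.1`). The set of
the `q` is finite, `V` is finite (`Bas`). So there are finitely many sets `HS I t' Q W`, and a
subgroup is determined by its set. -/
def S_Hfin : Prop :=
  ∀ {G N P ι : Type} [Group G] [TopologicalSpace G] [AddCommGroup N] [DistribMulAction G N]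
    [Fintype ι] [DecidableEq ι] (D : Dat G N P), Ax D → ∀ A : Finset P, (D.HH ι A).Finite

/-- Module `Hgr` (the sets `HS` are open normal subgroups, and their index). `A` is the index set of
the pivots, `F p` the systems. PROOF. `K0 = {h | (∀ q ∈ Q, q h = 0) ∧ ∀ p ∈ A, h ∈ sysK I (c p) (F p)}`:
finite intersection of kernels of locally constant characters and of the groups of `Nrm`, so an open
normal subgroup. `HS` is the subset where the functions `l p h = e (F p I h) t'` vanish; they are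
additive on `K0` and invariant under conjugation (`Nrm`), locally constant. The index is `Tri` with
the `g p`. -/
def S_Hgr : Prop :=
  ∀ {G N P ι α : Type} [Group G] [TopologicalSpace G] [IsTopologicalGroup G] [AddCommGroup N]
    [DistribMulAction G N] [DecidableEq ι] (D : Dat G N P), Ax D → ∀ (Gb : Subgroup G)
    (I : Finset ι) (t' : N) (Q : Finset (G → ZMod 2)) (A : Finset α)
    (c : α → ι → G → ZMod 2) (F : α → Finset ι → G → N), 2 • t' = 0 → (∀ q ∈ Q, IsCh q) →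
    (∀ p ∈ A, ∀ i ∈ I, IsLocallyConstant (c p i)) → (∀ p ∈ A, Sys I (c p) (F p)) →
    (∀ p ∈ A, ∀ U ⊆ I, IsLocallyConstant (F p U)) → ∀ (g : α → G) (ρ : α → ℕ),
    (∀ p ∈ A, (∀ q ∈ Q, q (g p) = 0) ∧ (∀ p' ∈ A, g p ∈ sysK I (c p') (F p')) ∧ g p ∈ Gb ∧
      D.e (F p I (g p)) t' = 1) →
    (∀ p ∈ A, ∀ p' ∈ A, D.e (F p' I (g p)) t' ≠ 0 → p' = p ∨ ρ p < ρ p') →
    ∃ K₀ H : Subgroup G, IsOpen (K₀ : Set G) ∧ H.Normal ∧ IsOpen (H : Set G) ∧
      (∀ h, h ∈ K₀ ↔ (∀ q ∈ Q, q h = 0) ∧ ∀ p ∈ A, h ∈ sysK I (c p) (F p)) ∧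
      (∀ h, h ∈ H ↔ (∀ q ∈ Q, q h = 0) ∧ ∀ p ∈ A, h ∈ sysK I (c p) (F p) ∧
        D.e (F p I h) t' = 0) ∧ H.relIndex Gb = K₀.relIndex Gb * 2 ^ #A

/-- Module `Pv` (the system of a pivot). PROOF. `X = cf c₀ p`, `Y = cf c₀ x`, the cube is good
(`Gdc`). `t₀ z` := a half of `τ` in `Z z` if there is one. `Str0` (second part) gives `s`; put `t z =
t₀ z + (fun _ => s)` for `z = X` and `t z = t₀ z` otherwise (the constant function is in `Z X` by
`Tin`, `2 s = 0`); so `alt X Y I (coc z (t z) (τ_(c₀))) = 0` (`X b = c₀`). `F U = fc X Y I τ t U` for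
`U ⊆ I`, zero otherwise. (1) `Fac` (`2^K τ = 2 f = 0`, `2^(K-1) τ (inr i) = f (inr i) = 0`); the
characters `ch (X i) + ch (Y i)` vanish for `i ∉ I` (`X i = Y i`). (2) `v ∉ A`, so `v ∉ D.S` and `v`
is not `X i`, `Y i` for `i ≠ b` (`e k ∈ A`; `R j = X j ∈ S j ⊆ A` since `X ∈ tup S`): if `v ≠ c₀` use
`Psi0` (C), if `v = c₀` `Psi0` (B) for `U ≠ I` and the normalisation for `U = I`. (3) is in `Fac`. (4)
Let `c` be a prime such that all `vtx x p w` satisfy `Lp τ c`. `c = c₀`: `Psi0` (B), `Str0` (first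
part). `c ≠ c₀`: the cube `X' = cf c p`, `Y`, `U = insert b I` is good (`Gdc`), `update X' b (Y b) =
cf c₀ p = X` (`Y b = c₀`). `Psi0` (A): the proper functions vanish at `φ_c`. There is `ν ∈ Lam` with
`ν = 0` on `I` and `γ ν = 1`: `γ ≠ 0` since `0 ∈ O X K` (the type `ξ = 0`, `η = 0`) and
`O X K = s.2.2` does not contain `γ`; subtract from `ν` the constant (`com`, `gT`). By `pat`
`ν (inr b) = t'`, and `Star` gives `e (F I (φ_c)) t' = 0`. The characters: `ch (X i) + ch (Y i)`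
vanishes at `φ_c`, `i ∈ I`: both `cf c p`, `cf c x` have the symbols `s.1`, entry `(i, b)`. -/
def S_Pv : Prop :=
  ∀ {G N P ι : Type} [Group G] [TopologicalSpace G] [IsTopologicalGroup G] [AddCommGroup N]
    [DistribMulAction G N] [Fintype ι] [DecidableEq ι] {M : ℕ} (D : Dat G N P), Ax D → Ax2 D →
    ∀ (S : ι → Finset P) (g : Grd P ι M) (s : D.ST ι), D.Gok S g → ∀ (K : ℕ)
    (Lam : AddSubgroup (D.J ι → N)) (f : D.J ι → N) (γ : (D.J ι → N) → ZMod 2) (t' : N),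
    D.Cho g.I g.b K s Lam f γ t' → (∀ c p, D.Gp S g s c p → D.Dk (g.cf c p) 1 = Lam) →
    ∀ τ : D.J ι → N, 2 ^ (K - 1) • τ = f → ∀ (c₀ : P) (x p : {i // i ∈ g.I} → Fin M),
    (∀ i, x i < p i) → (∀ w, D.Lp S g K s f τ c₀ (vtx x p w)) → ∀ A : Finset P, D.S ⊆ A →
    (∀ i, i ≠ g.b → S i ⊆ A) →
    ∃ F : Finset ι → G → N,
      Sys g.I (fun i σ => if i ∈ g.I then D.ch (g.cf c₀ p i) σ + D.ch (g.cf c₀ x i) σ else 0) F ∧
      (∀ U ⊆ g.I, IsLocallyConstant (F U) ∧ ∀ v, v ∉ A → F U (D.tau v) = 0) ∧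
      (∀ U, ¬ U ⊆ g.I → F U = 0) ∧ (∀ σ, F ∅ σ = D.coc (g.cf c₀ p) f σ) ∧
      ∀ c, (∀ w, D.Lp S g K s f τ c (vtx x p w)) →
        D.phi c ∈ sysK g.I (fun i σ => if i ∈ g.I then D.ch (g.cf c₀ p i) σ +
          D.ch (g.cf c₀ x i) σ else 0) F ∧ D.e (F g.I (D.phi c)) t' = 0

/-- Module `Cls` (the class bound). `Bt` is the set of the primes `c`. PROOF. Let `Piv` be the set of
the `p` which are corners of some `L τ`. For `p ∈ Piv` choose `τ_p`, `x_p` and `F_p` from `Pv`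
(`A = D.S ∪ ⋃_(i ≠ b) S i`). `Q` = the set of the functions `ch (e (i, m)) + ch (e (i, m'))` with
`ch (e (i, m)) (φ_(c₀)) = ch (e (i, m')) (φ_(c₀))`. The point `g_p = itc (fun i => τ_(e (i, p i)))
(I.toList) σ₀`; `σ₀` with `e (coc (cf c₀ p) f σ₀) t' = 1` for all `p ∈ Piv` (`Coe`, hypothesis). `Com`
for the system `F_(p')`: `ch (e (j, ..))` vanishes at `τ_(e (i, p i))` for `j ≠ i`; `F_(p') ∅ =
coc (cf c₀ p') f` vanishes at `τ_(e (i, p i))`: `e (i, p i)` is the place `cf c₀ p' i` (value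
`-f (inr i) = 0`) or no place of `cf c₀ p'` (`≠ c₀` since `cf c₀ p` is injective, `≠ R j`, `∉ D.S`). So
`g_p ∈ sysK`, the characters in `Q` vanish at commutators, `g_p ∈ Gb`. `F_(p') I (g_p) =
coc (cf c₀ p') f σ₀` if `e (i, p i) ∈ {e (i, p' i), e (i, x_(p') i)}` for all `i` and zero otherwise:
so `≠ 0` implies `p ≤ p'`, `ρ p = ∑ p i`. `Hgr` gives `K₀`, `H`; `H ∈ HH ι A` with
`W = {(c_p, F_p) | p ∈ Piv}`. All `c` in the class satisfy `φ_c ∈ H`: for `Q` the first component of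
the code, for `F_p` the last part of `Pv` (`L τ_p` for `c` is the one for `c₀`). `Rat` for `K₀`
(`α = ι' × Fin M`, `C = ι' × ZMod 2`, `κ (i, m) = (i, ch (e (i, m)) (φ_(c₀)))`; `relIndex ≠ 0` by
`fidx`): `2^(K M) ≤ 2^(2 K) [Gb : K₀ ∩ Gb]`. With the hypothesis on `H`:
`#class * 2^#Piv * 2^(K M) ≤ 2^(2 K) #class * H.relIndex Gb ≤ 2^(2 K) * 2 * #Bt`; multiply by
`(K M + 1) * 2` (the cardinality of the other factors of the codes). -/
def S_Cls : Prop :=
  ∀ {G N P ι : Type} [Group G] [TopologicalSpace G] [IsTopologicalGroup G] [AddCommGroup N]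
    [DistribMulAction G N] [Fintype ι] [DecidableEq ι] {M : ℕ} (D : Dat G N P)
    (Gb : Subgroup G), Ax D → Ax2 D → (∀ v, D.tau v ∈ Gb) → (∀ σ τ : G, σ * τ * σ⁻¹ * τ⁻¹ ∈ Gb) →
    ∀ (S : ι → Finset P) (g : Grd P ι M) (s : D.ST ι), D.Gok S g → ∀ (K : ℕ)
    (Lam : AddSubgroup (D.J ι → N)) (f : D.J ι → N) (γ : (D.J ι → N) → ZMod 2) (t' : N),
    D.Cho g.I g.b K s Lam f γ t' → (∀ c p, D.Gp S g s c p → D.Dk (g.cf c p) 1 = Lam) →
    (∀ c p, D.Zp S g K s c p → ∃ σ, D.e (D.coc (g.cf c p) f σ) t' = 1) →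
    ∀ A : Finset P, D.S ⊆ A → (∀ i, i ≠ g.b → S i ⊆ A) →
    (∀ H ∈ D.HH ι A, ({c ∈ S g.b | D.phi c ∈ H} : Set P).ncard * H.relIndex Gb ≤ 2 * #(S g.b)) →
    ∀ c₀ : P, ({c ∈ S g.b | D.cod S g s c = D.cod S g s c₀ ∧
        ∀ τ, 2 ^ (K - 1) • τ = f → D.Lp S g K s f τ c = D.Lp S g K s f τ c₀} : Set P).ncard *
      2 ^ Nat.card {p : {i // i ∈ g.I} → Fin M //
        ∃ τ : D.J ι → N, 2 ^ (K - 1) • τ = f ∧ Corner (D.Lp S g K s f τ c₀) p} *
      (2 ^ (K * M) * ((K * M + 1) * 2)) ≤ 2 ^ (2 * K + 2) * (K * M + 1) * #(S g.b)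

/-- Module `Chs` (the choices). PROOF. `f₀ = f - (fun _ => f (inr b))`; `T ≤ Dk z k` for all `Ok z`,
`k ≥ 1` (`Dk1`), and `2 • f (inr b) = 0` since `f ∈ Dk z₀ 1`. `Gam` for `z₀`, `f₀`. `f₀ ∈ Z z₀` is not
zero (`0 ∈ T`), so there is `σ` with `coc z₀ f₀ σ ≠ 0` (`TyU`), in `V` (`Uq` (5)), and `t'` by `e_nd`.
`Pat` for `c ν = if γ ν = 0 then 0 else t'` gives `I`. -/
def S_Chs : Prop :=
  ∀ {G N P ι : Type} [Group G] [TopologicalSpace G] [AddCommGroup N] [DistribMulAction G N]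
    [Fintype ι] [DecidableEq ι] (D : Dat G N P), Ax D → ∀ (b : ι) (K : ℕ), 1 ≤ K →
    ∀ (s : D.ST ι) (z₀ : ι → P), D.Ok z₀ → D.IsSt K z₀ s → 16 ≤ Nat.card s.2.1 →
    D.Pat (D.Dk z₀ 1) b K → ∀ f ∈ s.2.1, f ∉ D.T ι →
    ∃ (I : Finset ι) (f₀ : D.J ι → N) (γ : (D.J ι → N) → ZMod 2) (t' : N),
      D.Cho I b K s (D.Dk z₀ 1) f₀ γ t' ∧ (∃ σ, D.e (D.coc z₀ f₀ σ) t' = 1) ∧
      ∀ z : ι → P, D.Ok z → ∀ k, 1 ≤ k → (f ∈ D.Dk z k ↔ f₀ ∈ D.Dk z k)

/-- Module `Spt` (summation over the other primes). PROOF. `z ↦ ((z i)_(i ∈ I), z b, (z j)_j)` is a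
bijection; the set on the left is the disjoint union over `R ∈ ∏_(j ∉ I, j ≠ b) S j` of the sets of
the pairs `(u, c)`. With `R` fixed the configuration is `cfg u c`. -/
def S_Spt : Prop :=
  ∀ {P ι : Type} [Fintype ι] [DecidableEq ι] [DecidableEq P] (S : ι → Finset P) (I : Finset ι)
    (b : ι), b ∉ I → ∀ (z y : (ι → P) → Prop) (κ ε : ℝ), 0 ≤ κ → 0 ≤ ε →
    (∀ R : ι → P, (∀ j, j ∉ I → j ≠ b → R j ∈ S j) →
      (Nat.card {q : ({i // i ∈ I} → P) × {c // c ∈ S b} // (∀ i, q.1 i ∈ S i.1) ∧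
          y (fun j => if h : j ∈ I then q.1 ⟨j, h⟩ else if j = b then q.2.1 else R j)} : ℝ) ≤
        κ * (Nat.card {q : ({i // i ∈ I} → P) × {c // c ∈ S b} // (∀ i, q.1 i ∈ S i.1) ∧
          z (fun j => if h : j ∈ I then q.1 ⟨j, h⟩ else if j = b then q.2.1 else R j)} : ℝ) +
        ε * #(S b) * ∏ i : {i // i ∈ I}, (#(S i.1) : ℝ)) →
    ({x | (∀ i, x i ∈ S i) ∧ y x}.ncard : ℝ) ≤
      κ * ({x | (∀ i, x i ∈ S i) ∧ z x}.ncard : ℝ) + ε * ∏ i, (#(S i) : ℝ)

/-- Module `Brg` (assembly). PROOF. Let `T1` be the type of the `ξ` with `2 ≤ K`, `2^(K-1) ξ = 0`,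
`2^(K-2) ξ = 0` on `I`, `T2` the type of the `τ` with `2^(K-1) τ = f₀` (`2^K τ = 0`), both finite with
bounded cardinality (`Bas`: `N[2^K]` is finite), `V` the type of the functions from the `ν` with
`2 ν = 0` to `ZMod 2`. `main_ineq` with `B = 2^(2K+2) K` gives `M`; `N₁ ≥ K M (K M + #ι) 2 / ε`.
`HH = HH ι A`, `A = D.S ∪ ⋃_(i ≠ b) S i`, finite by `Hfin`. If there is no `z₀ ∈ tup S'` in the state,
all is zero. Otherwise `Chs`, and `Lam = Dk z 1` for all good `z` by `Sy1`. `Spt` with `κ = 15/16`: for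
fixed `R` use `main_ineq` with `ι' = {i // i ∈ I}`, `β = {c // c ∈ S' b}`, `T` = the image of `R` on
the complement of `I ∪ {b}`; for `e` the grid is `Gok`, and `CodingData` has `a = cod`,
`g ξ c p = gfn`, `Dom ξ α p` = there is `c' ∈ S' b` with `cod c' = α` and `Gp c' p` (by `Dom` this is
`Gp c p` for `α = cod c`), `Z, Y, L` the sets of the points with `Zp`, `Yp`, `Lp`; the fields are
`Hg`, `Hz`, `Hl`, `Cls` (`#𝒜 = 2^(KM) (KM + 1) 2`). -/
def S_Asm : Prop := S_Brg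

end Pool.Agent.MP72S
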